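import Pool.Agent.Helper61.BBGermA

set_option autoImplicit false

namespace Pool.Agent.Helper27.BBGermB

open Pool.Agent.Helper16 Pool.Agent.Helper16.BB Pool.Agent.Helper61.BBGermA

section

variable {k : Type} [Field k] (g : Germ k)

/-- The constants in the valuation ring of a germ. -/
noncomputable def cst : AlgebraicClosure k →+* g.O where
  toFun a := ⟨algebraMap (AlgebraicClosure k) (Omega k) a, (g.red_const a).choose⟩
  map_one' := by apply Subtype.ext; simp
  map_mul' a b := by apply Subtype.ext; simp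
  map_zero' := by apply Subtype.ext; simp
  map_add' a b := by apply Subtype.ext; simp

theorem cst_coe (a : AlgebraicClosure k) :
    ((cst g a : g.O) : Omega k) = algebraMap (AlgebraicClosure k) (Omega k) a := rfl

theorem red_cst (a : AlgebraicClosure k) : g.red (cst g a) = a := (g.red_const a).choose_spec

/-- Evaluation of a polynomial over `k` at a tuple in the valuation ring. -/
noncomputable def ev {β : Type} (x : β → g.O) : MvPolynomial β k →+* g.O :=
  MvPolynomial.eval₂Hom ((cst g).comp (algebraMap k (AlgebraicClosure k))) x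

theorem red_ev {β : Type} (x : β → g.O) (P : MvPolynomial β k) :
    g.red (ev g x P) = MvPolynomial.aeval (fun j => g.red (x j)) P := by
  unfold ev
  rw [MvPolynomial.coe_eval₂Hom, MvPolynomial.hom_eval₂, MvPolynomial.aeval_def]
  congr 1
  ext a
  simp [red_cst]

theorem coe_ev {β : Type} (x : β → g.O) (P : MvPolynomial β k) :
    ((ev g x P : g.O) : Omega k) = MvPolynomial.aeval (fun j => ((x j : g.O) : Omega k)) P := by
  unfold ev
  rw [MvPolynomial.coe_eval₂Hom, MvPolynomial.aeval_def]
  have := MvPolynomial.hom_eval₂ P ((cst g).comp (algebraMap k (AlgebraicClosure k))) g.O.subtype x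
  refine Eq.trans this ?_
  congr 1

/-- Square root extraction. -/
theorem core (hk : ringChar k ≠ 2) (f gg h : g.O) (a₀ b₀ : AlgebraicClosure k) (ha : a₀ ≠ 0)
    (hf : g.red f = a₀ ^ 2) (hg : g.red gg = 2 * a₀ * b₀) (hd : gg ^ 2 = 4 * f * h) :
    ∃ a b : g.O, f = a ^ 2 ∧ gg = 2 * a * b ∧ h = b ^ 2 ∧ g.red a = a₀ ∧ g.red b = b₀ := by
  have h2 : (2 : AlgebraicClosure k) ≠ 0 := by
    intro h
    have h3 : (2 : k) = 0 := by
      apply (algebraMap k (AlgebraicClosure k)).injective
      rw [map_ofNat, map_zero]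
      exact h
    apply hk
    have : ringChar k ∣ 2 := by
      rw [← ringChar.spec]
      exact_mod_cast h3
    rcases (Nat.dvd_prime Nat.prime_two).1 this with h4 | h4
    · exfalso
      have := (ringChar.spec k 1).2 (by rw [h4])
      simp at this
    · exact h4
  obtain ⟨a, ha1, ha2⟩ := root_lift g.O g.red g.red_zero (Polynomial.X ^ 2 - Polynomial.C f)
    (by
      rw [Polynomial.map_sub, Polynomial.map_pow, Polynomial.map_X, Polynomial.map_C]
      exact Polynomial.X_pow_sub_C_ne_zero (by norm_num) _)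
    a₀ (by
      rw [Polynomial.map_sub, Polynomial.map_pow, Polynomial.map_X, Polynomial.map_C, hf]
      simp)
  have hfa : f = a ^ 2 := by
    simp only [Polynomial.eval_sub, Polynomial.eval_pow, Polynomial.eval_X,
      Polynomial.eval_C] at ha1
    linear_combination -ha1
  have hu : IsUnit (2 * a) := by
    by_contra hc
    have h3 : g.red (2 * a) = 0 := (g.red_zero _).2 ((IsLocalRing.mem_maximalIdeal _).2 hc)
    rw [map_mul, map_ofNat, ha2] at h3
    exact mul_ne_zero h2 ha h3
  obtain ⟨u, hu⟩ := hu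
  have hg2 : gg = 2 * a * (gg * ((u⁻¹ : g.Oˣ) : g.O)) := by
    rw [← hu]
    rw [mul_comm gg, ← mul_assoc, Units.mul_inv, one_mul]
  refine ⟨a, gg * ((u⁻¹ : g.Oˣ) : g.O), hfa, hg2, ?_, ha2, ?_⟩
  · set b := gg * ((u⁻¹ : g.Oˣ) : g.O) with hb
    have h5 : (2 * a) * (2 * a) * h = (2 * a) * (2 * a) * b ^ 2 := by
      have h6 : (2 * a * b) ^ 2 = 4 * a ^ 2 * h := by rw [← hg2, hd, hfa]
      linear_combination -h6
    rw [← hu] at h5
    have := (u * u).isUnit.mul_left_cancel (b := h) (c := b ^ 2) (by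
      rw [Units.val_mul]; exact h5)
    exact this
  · have h7 : g.red (2 * a) * g.red (gg * ((u⁻¹ : g.Oˣ) : g.O)) = 2 * a₀ * b₀ := by
      rw [← map_mul, ← hg2, hg]
    rw [map_mul, map_ofNat, ha2] at h7
    exact mul_left_cancel₀ (mul_ne_zero h2 ha) h7

/-- A curve germ in the discriminant locus. -/
theorem curve {β : Type} (P : MvPolynomial β k) (c : β → AlgebraicClosure k)
    (hP : MvPolynomial.aeval c P = 0) (b₁ b₂ : β) (hb : b₁ ≠ b₂) :
    ∃ x : β → g.O, ev g x P = 0 ∧ (∀ j, g.red (x j) = c j) ∧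
      (∀ j, j ≠ b₁ → j ≠ b₂ → x j = cst g (c j)) ∧
      (x b₁ = cst g (c b₁) + ⟨g.s, g.hs⟩ ∨ x b₂ = cst g (c b₂) + ⟨g.s, g.hs⟩) := by
  classical
  -- the polynomial in the second variable
  let y : g.O → β → Polynomial g.O := fun p j =>
    if j = b₂ then Polynomial.C (cst g (c j)) + Polynomial.X
    else if j = b₁ then Polynomial.C (cst g (c j) + p) else Polynomial.C (cst g (c j))
  let q : g.O → Polynomial g.O := fun p =>
    MvPolynomial.eval₂ (Polynomial.C.comp ((cst g).comp (algebraMap k (AlgebraicClosure k))))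
      (y p) P
  let y0 : β → Polynomial (AlgebraicClosure k) := fun j =>
    if j = b₂ then Polynomial.C (c j) + Polynomial.X else Polynomial.C (c j)
  let q0 : Polynomial (AlgebraicClosure k) :=
    MvPolynomial.eval₂ (Polynomial.C.comp (algebraMap k (AlgebraicClosure k))) y0 P
  have hq0 : ∀ p : g.O, g.red p = 0 → (q p).map g.red = q0 := by
    intro p hp
    have := MvPolynomial.hom_eval₂ P
      (Polynomial.C.comp ((cst g).comp (algebraMap k (AlgebraicClosure k))))
      (Polynomial.mapRingHom g.red) (y p)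
    refine Eq.trans this ?_
    change _ = MvPolynomial.eval₂ _ _ _
    congr 1
    · ext a
      simp [red_cst]
    · funext j
      simp only [y, y0]
      split_ifs <;> simp [red_cst, hp]
  have hev : ∀ p t : g.O, (q p).eval t = ev g (fun j => (y p j).eval t) P := by
    intro p t
    have := MvPolynomial.hom_eval₂ P
      (Polynomial.C.comp ((cst g).comp (algebraMap k (AlgebraicClosure k))))
      (Polynomial.evalRingHom t) (y p)
    refine Eq.trans this ?_
    unfold ev
    rw [MvPolynomial.coe_eval₂Hom]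
    congr 1
    ext a
    simp
  have hq00 : q0.eval 0 = 0 := by
    have := MvPolynomial.hom_eval₂ P
      (Polynomial.C.comp (algebraMap k (AlgebraicClosure k)))
      (Polynomial.evalRingHom 0) y0
    refine Eq.trans this ?_
    refine Eq.trans ?_ hP
    rw [MvPolynomial.aeval_def]
    congr 1
    · ext a
      simp
    · funext j
      simp only [y0]
      split_ifs <;> simp
  have hx1 : ∀ p t : g.O, g.red p = 0 → g.red t = 0 → ∀ j, g.red ((y p j).eval t) = c j := by
    intro p t hp ht j
    simp only [y]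
    split_ifs <;> simp [red_cst, hp, ht]
  have hx2 : ∀ p t : g.O, ∀ j, j ≠ b₁ → j ≠ b₂ → (y p j).eval t = cst g (c j) := by
    intro p t j h1 h2
    simp only [y]
    rw [if_neg h2, if_neg h1]
    simp
  by_cases h0 : q0 = 0
  · refine ⟨fun j => (y 0 j).eval ⟨g.s, g.hs⟩, ?_, ?_, ?_, Or.inr ?_⟩
    · -- q 0 is the image of q0
      have h1 : q 0 = q0.map (cst g) := by
        have := MvPolynomial.hom_eval₂ P
          (Polynomial.C.comp (algebraMap k (AlgebraicClosure k)))
          (Polynomial.mapRingHom (cst g)) y0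
        refine Eq.trans ?_ this.symm
        change MvPolynomial.eval₂ _ _ _ = _
        congr 1
        · ext a
          simp
        · funext j
          simp only [y, y0]
          split_ifs <;> simp
      rw [← hev, h1, h0]
      simp
    · exact hx1 0 _ (map_zero _) g.red_s
    · exact hx2 0 _
    · simp only [y, if_true]
      simp
  · obtain ⟨t, ht1, ht2⟩ := root_lift g.O g.red g.red_zero (q ⟨g.s, g.hs⟩)
      (by rw [hq0 _ g.red_s]; exact h0) 0 (by rw [hq0 _ g.red_s]; exact hq00)
    refine ⟨fun j => (y ⟨g.s, g.hs⟩ j).eval t, ?_, ?_, ?_, Or.inl ?_⟩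
    · rw [← hev, ht1]
    · exact hx1 _ _ g.red_s ht2
    · exact hx2 _ _
    · simp only [y, if_neg hb, if_true]
      simp

end

theorem tr_of (k : Type) [Field k] (g : Germ k) (a : AlgebraicClosure k) :
    Transcendental k (((cst g a + ⟨g.s, g.hs⟩ : g.O)) : Omega k) := by
  intro h
  apply g.s_tr
  have h1 : IsAlgebraic (AlgebraicClosure k) (((cst g a + ⟨g.s, g.hs⟩ : g.O)) : Omega k) :=
    h.extendScalars (algebraMap k (AlgebraicClosure k)).injective
  have h2 : IsAlgebraic (AlgebraicClosure k)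
      (algebraMap (AlgebraicClosure k) (Omega k) a) := isAlgebraic_algebraMap a
  have h3 := h1.sub h2
  have h4 : (((cst g a + ⟨g.s, g.hs⟩ : g.O)) : Omega k) -
      algebraMap (AlgebraicClosure k) (Omega k) a = g.s := by
    change (((cst g a : g.O) : Omega k) + g.s) - _ = _
    rw [cst_coe]
    ring
  rwa [h4] at h3

theorem exists_split_curve {k : Type} [Field k] (hk : ringChar k ≠ 2) {β : Type} [Finite β]
    (F G H : MvPolynomial β k) (c : β → AlgebraicClosure k) (a₀ b₀ : AlgebraicClosure k)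
    (hab : a₀ ≠ 0 ∨ b₀ ≠ 0) (hF : MvPolynomial.aeval c F = a₀ ^ 2)
    (hG : MvPolynomial.aeval c G = 2 * a₀ * b₀) (hH : MvPolynomial.aeval c H = b₀ ^ 2)
    (b₁ b₂ : β) (hb : b₁ ≠ b₂) :
    ∃ (E : Type) (_ : Field E) (_ : Algebra k E) (x : β → E) (a b : E) (u : Place k E)
      (ρ : u.resField →ₐ[k] AlgebraicClosure k), IsFunctionField k E ∧
      MvPolynomial.aeval x F = a ^ 2 ∧ MvPolynomial.aeval x G = 2 * a * b ∧
      MvPolynomial.aeval x H = b ^ 2 ∧ (∀ j, u.val (x j) ≤ 1 ∧ ρ (u.res (x j)) = c j) ∧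
      (u.val a ≤ 1 ∧ ρ (u.res a) = a₀) ∧ (u.val b ≤ 1 ∧ ρ (u.res b) = b₀) ∧
      (∀ j, j ≠ b₁ → j ≠ b₂ → IsAlgebraic k (x j)) ∧
      (∀ j, j ≠ b₁ → j ≠ b₂ → c j = 1 → x j = 1) ∧
      (Transcendental k (x b₁) ∨ Transcendental k (x b₂)) := by
  obtain ⟨g⟩ := exists_germ k
  obtain ⟨x, hx0, hx1, hx2, hx3⟩ := curve g (G ^ 2 - 4 * F * H) c (by
    simp only [map_sub, map_mul, map_pow, map_ofNat, hF, hG, hH]
    ring) b₁ b₂ hb
  have hxr : (fun j => g.red (x j)) = c := funext hx1
  have hrF : g.red (ev g x F) = a₀ ^ 2 := by rw [red_ev, hxr, hF]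
  have hrG : g.red (ev g x G) = 2 * a₀ * b₀ := by rw [red_ev, hxr, hG]
  have hrH : g.red (ev g x H) = b₀ ^ 2 := by rw [red_ev, hxr, hH]
  have hd : (ev g x G) ^ 2 = 4 * ev g x F * ev g x H := by
    simp only [map_sub, map_mul, map_pow, map_ofNat] at hx0
    linear_combination hx0
  obtain ⟨a, b, hfa, hgab, hhb, hra, hrb⟩ : ∃ a b : g.O, ev g x F = a ^ 2 ∧
      ev g x G = 2 * a * b ∧ ev g x H = b ^ 2 ∧ g.red a = a₀ ∧ g.red b = b₀ := by
    rcases hab with h | h
    · exact core g hk _ _ _ a₀ b₀ h hrF hrG hd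
    · obtain ⟨b, a, h1, h2, h3, h4, h5⟩ := core g hk (ev g x H) (ev g x G) (ev g x F) b₀ a₀ h
        hrH (by rw [hrG]; ring) (by rw [hd]; ring)
      exact ⟨a, b, h3, by rw [h2]; ring, h1, h5, h4⟩
  let S : Set (Omega k) := Set.range (fun j => ((x j : g.O) : Omega k)) ∪ {(a : Omega k), (b : Omega k)}
  have hS : S.Finite := (Set.finite_range _).union (Set.toFinite _)
  have hxS : ∀ j, ((x j : g.O) : Omega k) ∈ S := fun j => Or.inl ⟨j, rfl⟩
  have haS : (a : Omega k) ∈ S := Or.inr (Or.inl rfl)
  have hbS : (b : Omega k) ∈ S := Or.inr (Or.inr rfl)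
  have htr : ∃ s ∈ S, Transcendental k s := by
    rcases hx3 with h | h
    · exact ⟨_, hxS b₁, by rw [h]; exact tr_of k g _⟩
    · exact ⟨_, hxS b₂, by rw [h]; exact tr_of k g _⟩
  obtain ⟨s, hsS, hst⟩ := htr
  obtain ⟨hff, u, ρ, hu, hρ⟩ := germ_place g S hS s hsS hst
  have mem : ∀ z ∈ S, z ∈ IntermediateField.adjoin k S :=
    fun z hz => IntermediateField.subset_adjoin k S hz
  let X : β → IntermediateField.adjoin k S := fun j => ⟨(x j : Omega k), mem _ (hxS j)⟩
  let A : IntermediateField.adjoin k S := ⟨(a : Omega k), mem _ haS⟩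
  let B : IntermediateField.adjoin k S := ⟨(b : Omega k), mem _ hbS⟩
  have hval : ∀ z : IntermediateField.adjoin k S, ∀ w : g.O, (z : Omega k) = (w : Omega k) →
      u.val z ≤ 1 ∧ ρ (u.res z) = g.red w := by
    intro z w hzw
    have hz : (z : Omega k) ∈ g.O := by rw [hzw]; exact w.2
    refine ⟨(hu z).2 hz, ?_⟩
    rw [hρ z hz]
    congr 1
    exact Subtype.ext hzw
  have haev : ∀ Q : MvPolynomial β k, ((MvPolynomial.aeval X Q : IntermediateField.adjoin k S) :
      Omega k) = ((ev g x Q : g.O) : Omega k) := by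
    intro Q
    rw [coe_ev]
    have := MvPolynomial.aeval_algebraMap_apply (Omega k) X Q
    exact this.symm
  have htrx : ∀ j, Transcendental k ((x j : g.O) : Omega k) → Transcendental k (X j) := by
    intro j hj hj2
    apply hj
    have := (isAlgebraic_algebraMap_iff (R := k) (A := Omega k) (a := X j)
      (algebraMap (IntermediateField.adjoin k S) (Omega k)).injective).2 hj2
    exact this
  refine ⟨IntermediateField.adjoin k S, inferInstance, inferInstance, X, A, B, u, ρ, hff,
    ?_, ?_, ?_, ?_, ?_, ?_, ?_, ?_, ?_⟩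
  · apply Subtype.ext
    rw [haev, hfa]
    rfl
  · apply Subtype.ext
    rw [haev, hgab]
    rfl
  · apply Subtype.ext
    rw [haev, hhb]
    rfl
  · intro j
    have := hval (X j) (x j) rfl
    rw [hx1 j] at this
    exact this
  · have := hval A a rfl
    rw [hra] at this
    exact this
  · have := hval B b rfl
    rw [hrb] at this
    exact this
  · intro j h1 h2
    rw [← isAlgebraic_algebraMap_iff (R := k) (A := Omega k) (a := X j)
      (algebraMap (IntermediateField.adjoin k S) (Omega k)).injective]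
    change IsAlgebraic k ((x j : g.O) : Omega k)
    rw [hx2 j h1 h2, cst_coe]
    exact (Algebra.IsAlgebraic.isAlgebraic (R := k) (c j)).algebraMap
  · intro j h1 h2 h3
    apply Subtype.ext
    change ((x j : g.O) : Omega k) = 1
    rw [hx2 j h1 h2, cst_coe, h3, map_one]
  · rcases hx3 with h | h
    · left
      apply htrx
      rw [h]
      exact tr_of k g _
    · right
      apply htrx
      rw [h]
      exact tr_of k g _

end Pool.Agent.Helper27.BBGermB
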