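import Pool.Agent.Helper68.KurBase

/-!
# Good pairs of edges in cubic graphs (module KUR-M4 for MP_1448dd_pr)

Foster's theorem for the cycle space of a graph, a Nash-Williams lower bound for the energy of a
circulation through an edge that does not lie in a short cycle, and the resulting count of good
pairs of edges.
-/

set_option autoImplicit false
open Classical Finset

namespace Pool.Agent.Helper68.Kur

section balls

variable {V : Type} [Fintype V]

lemma mem_bl_succ {H : SimpleGraph V} {x z : V} {k : ℕ} :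
    z ∈ bl H x (k + 1) ↔ z ∈ bl H x k ∨ ∃ y ∈ bl H x k, H.Adj y z := by
  simp [bl]

lemma bl_subset_succ (H : SimpleGraph V) (x : V) (k : ℕ) : bl H x k ⊆ bl H x (k + 1) :=
  fun _ hz => mem_bl_succ.mpr (Or.inl hz)

lemma mem_bl_iff_walk {H : SimpleGraph V} {x z : V} {k : ℕ} :
    z ∈ bl H x k ↔ ∃ w : H.Walk x z, w.length ≤ k := by
  induction k generalizing z with
  | zero =>
    constructor
    · intro h
      have : z = x := by simpa [bl] using h
      subst this
      exact ⟨SimpleGraph.Walk.nil, le_rfl⟩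
    · rintro ⟨w, hw⟩
      cases w with
      | nil => simp [bl]
      | cons h w' => simp at hw
  | succ k ih =>
    rw [mem_bl_succ]
    constructor
    · rintro (h | ⟨y, hy, hyz⟩)
      · obtain ⟨w, hw⟩ := ih.mp h
        exact ⟨w, by omega⟩
      · obtain ⟨w, hw⟩ := ih.mp hy
        exact ⟨w.concat hyz, by rw [SimpleGraph.Walk.length_concat]; omega⟩
    · rintro ⟨w, hw⟩
      by_cases hk : w.length ≤ k
      · exact Or.inl (ih.mpr ⟨w, hk⟩)
      · right
        have hnil : ¬ w.reverse.Nil := by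
          intro hn
          have := SimpleGraph.Walk.length_eq_zero_iff.mpr hn
          rw [SimpleGraph.Walk.length_reverse] at this
          omega
        obtain ⟨y, hy, w', hw'⟩ := SimpleGraph.Walk.not_nil_iff.mp hnil
        refine ⟨y, ih.mpr ⟨w'.reverse, ?_⟩, hy.symm⟩
        have h1 : w.reverse.length = w'.length + 1 := by rw [hw']; simp
        rw [SimpleGraph.Walk.length_reverse] at h1 ⊢
        omega

lemma mem_bl_symm {H : SimpleGraph V} {x z : V} {k : ℕ} (h : z ∈ bl H x k) : x ∈ bl H z k := by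
  obtain ⟨w, hw⟩ := mem_bl_iff_walk.mp h
  exact mem_bl_iff_walk.mpr ⟨w.reverse, by rwa [SimpleGraph.Walk.length_reverse]⟩

lemma mem_bl_trans {H : SimpleGraph V} {x y z : V} {k l : ℕ} (h : y ∈ bl H x k)
    (h' : z ∈ bl H y l) : z ∈ bl H x (k + l) := by
  obtain ⟨w, hw⟩ := mem_bl_iff_walk.mp h
  obtain ⟨w', hw'⟩ := mem_bl_iff_walk.mp h'
  exact mem_bl_iff_walk.mpr ⟨w.append w', by rw [SimpleGraph.Walk.length_append]; omega⟩

lemma bl_mono_graph {H G : SimpleGraph V} (hHG : ∀ a b, H.Adj a b → G.Adj a b) (x : V) (k : ℕ) :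
    bl H x k ⊆ bl G x k := by
  induction k with
  | zero => exact Finset.Subset.refl _
  | succ k ih =>
    intro z hz
    rcases mem_bl_succ.mp hz with h | ⟨y, hy, hyz⟩
    · exact mem_bl_succ.mpr (Or.inl (ih h))
    · exact mem_bl_succ.mpr (Or.inr ⟨y, ih hy, hHG _ _ hyz⟩)

lemma self_mem_bl (H : SimpleGraph V) (x : V) (k : ℕ) : x ∈ bl H x k := by
  induction k with
  | zero => simp [bl]
  | succ k ih => exact bl_subset_succ H x k ih

lemma bl_mono (H : SimpleGraph V) (x : V) {k l : ℕ} (h : k ≤ l) : bl H x k ⊆ bl H x l := by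
  induction h with
  | refl => exact Finset.Subset.refl _
  | step _ ih => exact ih.trans (bl_subset_succ H x _)

/-- ball growth for maximal degree three -/
lemma card_bl_le {H : SimpleGraph V}
    (hdeg : ∀ v : V, (Finset.univ.filter (fun w => H.Adj v w)).card ≤ 3) (x : V) (k : ℕ) :
    (bl H x k).card ≤ 4 ^ k := by
  induction k with
  | zero => simp [bl]
  | succ k ih =>
    have h1 : Finset.univ.filter (fun z => ∃ y ∈ bl H x k, H.Adj y z) =
        (bl H x k).biUnion (fun y => Finset.univ.filter (fun z => H.Adj y z)) := by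
      ext z
      simp
    have h2 : (Finset.univ.filter (fun z => ∃ y ∈ bl H x k, H.Adj y z)).card ≤
        (bl H x k).card * 3 := by
      rw [h1]
      exact Finset.card_biUnion_le_card_mul _ _ _ (fun y _ => hdeg y)
    have h3 : (bl H x (k + 1)).card ≤ (bl H x k).card + (bl H x k).card * 3 :=
      (Finset.card_union_le _ _).trans (Nat.add_le_add_left h2 _)
    rw [pow_succ]
    omega

/-- the cut around the ball of radius `k` -/
noncomputable def cut (H : SimpleGraph V) (u : V) (k : ℕ) : Finset (V × V) :=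
  Finset.univ.filter (fun e => e.1 ∈ bl H u k ∧ e.2 ∉ bl H u k ∧ H.Adj e.1 e.2)

lemma mem_cut {H : SimpleGraph V} {u : V} {k : ℕ} {e : V × V} :
    e ∈ cut H u k ↔ e.1 ∈ bl H u k ∧ e.2 ∉ bl H u k ∧ H.Adj e.1 e.2 := by
  simp [cut]

lemma card_cut_le {H : SimpleGraph V} {u : V}
    (hdeg : ∀ v : V, (Finset.univ.filter (fun w => H.Adj v w)).card ≤ 3)
    (hu : (Finset.univ.filter (fun w => H.Adj u w)).card ≤ 2) (k : ℕ) :
    (cut H u k).card ≤ 2 ^ (k + 1) := by
  induction k with
  | zero =>
    have h1 : (cut H u 0).card ≤ (Finset.univ.filter (fun w => H.Adj u w)).card := by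
      refine Finset.card_le_card_of_injOn Prod.snd ?_ ?_
      · intro e he
        have he' := mem_cut.mp he
        have h2 : e.1 = u := by simpa [bl] using he'.1
        simp only [Finset.coe_filter, Finset.mem_univ, true_and, Set.mem_ofPred_eq]
        rw [← h2]
        exact he'.2.2
      · intro e he e' he' hee
        have h1 := mem_cut.mp he
        have h2 := mem_cut.mp he'
        have h3 : e.1 = u := by simpa [bl] using h1.1
        have h4 : e'.1 = u := by simpa [bl] using h2.1
        exact Prod.ext (h3.trans h4.symm) hee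
    omega
  | succ k ih =>
    have h1 : (cut H u (k + 1)).card ≤ 2 * ((cut H u (k + 1)).image Prod.fst).card := by
      refine Finset.card_le_mul_card_image _ 2 ?_
      intro x hx
      obtain ⟨e, he, rfl⟩ := Finset.mem_image.mp hx
      have he' := mem_cut.mp he
      have hxk : e.1 ∉ bl H u k := fun h =>
        he'.2.1 (mem_bl_succ.mpr (Or.inr ⟨e.1, h, he'.2.2⟩))
      obtain ⟨y, hy, hyx⟩ := (mem_bl_succ.mp he'.1).resolve_left hxk
      -- neighbours of e.1 except y
      have h2 : ((cut H u (k + 1)).filter (fun a => a.1 = e.1)).card ≤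
          ((Finset.univ.filter (fun w => H.Adj e.1 w)).erase y).card := by
        refine Finset.card_le_card_of_injOn Prod.snd ?_ ?_
        · intro a ha
          simp only [Finset.coe_filter, Set.mem_ofPred_eq] at ha
          have ha' := mem_cut.mp ha.1
          simp only [Finset.coe_erase, Finset.coe_filter, Finset.mem_univ, true_and,
            Set.mem_sdiff, Set.mem_ofPred_eq, Set.mem_singleton_iff]
          refine ⟨?_, ?_⟩
          · rw [← ha.2]; exact ha'.2.2
          · intro hay
            apply ha'.2.1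
            rw [hay]
            exact bl_subset_succ H u k hy
        · intro a ha b hb hab
          simp only [Finset.coe_filter, Set.mem_ofPred_eq] at ha hb
          exact Prod.ext (ha.2.trans hb.2.symm) hab
      have h3 : ((Finset.univ.filter (fun w => H.Adj e.1 w)).erase y).card + 1 =
          (Finset.univ.filter (fun w => H.Adj e.1 w)).card :=
        Finset.card_erase_add_one (by simp [hyx.symm])
      have h4 := hdeg e.1
      omega
    have h5 : ((cut H u (k + 1)).image Prod.fst).card ≤ ((cut H u k).image Prod.snd).card := by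
      refine Finset.card_le_card ?_
      intro x hx
      obtain ⟨e, he, rfl⟩ := Finset.mem_image.mp hx
      have he' := mem_cut.mp he
      have hxk : e.1 ∉ bl H u k := fun h =>
        he'.2.1 (mem_bl_succ.mpr (Or.inr ⟨e.1, h, he'.2.2⟩))
      obtain ⟨y, hy, hyx⟩ := (mem_bl_succ.mp he'.1).resolve_left hxk
      exact Finset.mem_image.mpr ⟨(y, e.1), mem_cut.mpr ⟨hy, hxk, hyx⟩, rfl⟩
    have h6 : ((cut H u k).image Prod.snd).card ≤ (cut H u k).card := Finset.card_image_le
    rw [pow_succ]
    omega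

end balls

section foster

variable {V : Type} [Fintype V]

/-- the gradient -/
noncomputable def dlt (G : SimpleGraph V) : (V → ℝ) →ₗ[ℝ] EuclideanSpace ℝ (V × V) where
  toFun φ := WithLp.toLp 2 (fun e => if G.Adj e.1 e.2 then φ e.1 - φ e.2 else 0)
  map_add' φ ψ := by
    ext e
    simp only [PiLp.add_apply, Pi.add_apply]
    split_ifs <;> ring
  map_smul' c φ := by
    ext e
    simp only [PiLp.smul_apply, Pi.smul_apply, smul_eq_mul, RingHom.id_apply]
    split_ifs <;> ring

lemma dlt_apply (G : SimpleGraph V) (φ : V → ℝ) (e : V × V) :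
    dlt G φ e = if G.Adj e.1 e.2 then φ e.1 - φ e.2 else 0 := rfl

/-- the elementary antisymmetric vector -/
noncomputable def chi (u v : V) : EuclideanSpace ℝ (V × V) :=
  EuclideanSpace.single (u, v) 1 - EuclideanSpace.single (v, u) 1

lemma inner_chi (u v : V) (x : EuclideanSpace ℝ (V × V)) :
    inner ℝ (chi u v) x = x (u, v) - x (v, u) := by
  unfold chi
  rw [inner_sub_left, EuclideanSpace.inner_single_left, EuclideanSpace.inner_single_left]
  simp

lemma chi_apply (u v : V) (e : V × V) :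
    chi u v e = (if e = (u, v) then 1 else 0) - (if e = (v, u) then 1 else 0) := by
  unfold chi
  simp [PiLp.sub_apply]

lemma chi_norm_sq {u v : V} (h : u ≠ v) : ‖chi u v‖ ^ 2 = 2 := by
  rw [← real_inner_self_eq_norm_sq, inner_chi, chi_apply, chi_apply]
  have h1 : ¬ ((u, v) = (v, u)) := by
    intro hh
    exact h (congrArg Prod.fst hh)
  have h2 : ¬ ((v, u) = (u, v)) := fun hh => h1 hh.symm
  rw [if_pos rfl, if_neg h1, if_neg h2, if_pos rfl]
  norm_num

lemma chi_anti (u v x y : V) : chi u v (x, y) = - chi u v (y, x) := by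
  rw [chi_apply, chi_apply]
  have h1 : ((x, y) = (u, v)) ↔ ((y, x) = (v, u)) := by
    constructor <;> (intro h; simp only [Prod.mk.injEq] at h ⊢; exact ⟨h.2, h.1⟩)
  have h2 : ((x, y) = (v, u)) ↔ ((y, x) = (u, v)) := by
    constructor <;> (intro h; simp only [Prod.mk.injEq] at h ⊢; exact ⟨h.2, h.1⟩)
  simp only [h1, h2]
  ring

lemma mem_range_anti {G : SimpleGraph V} {m : EuclideanSpace ℝ (V × V)}
    (hm : m ∈ LinearMap.range (dlt G)) (x y : V) : m (x, y) = - m (y, x) := by
  obtain ⟨φ, rfl⟩ := hm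
  rw [dlt_apply, dlt_apply]
  simp only [G.adj_comm y x]
  split_ifs <;> ring

lemma mem_range_supp {G : SimpleGraph V} {m : EuclideanSpace ℝ (V × V)}
    (hm : m ∈ LinearMap.range (dlt G)) {e : V × V} (h : ¬ G.Adj e.1 e.2) : m e = 0 := by
  obtain ⟨φ, rfl⟩ := hm
  rw [dlt_apply, if_neg h]

theorem foster (G : SimpleGraph V) :
    ∃ (J : V → V → V → V → ℝ) (P : V → V → ℝ),
      (∀ u v, G.Adj u v → Circ G (J u v) ∧ J u v u v = P u v ∧
        ∑ x, ∑ y, (J u v x y) ^ 2 = 2 * P u v ∧ 0 ≤ P u v) ∧
      ∑ e ∈ Finset.univ.filter (fun e : V × V => G.Adj e.1 e.2), (1 - P e.1 e.2) ≤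
        2 * (Fintype.card V : ℝ) := by
  set M : Submodule ℝ (EuclideanSpace ℝ (V × V)) := LinearMap.range (dlt G) with hM
  set Q := M.starProjection with hQ
  have hQm : ∀ x, Q x ∈ M := fun x => M.starProjection_apply_mem x
  refine ⟨fun u v x y => (chi u v - Q (chi u v)) (x, y),
    fun u v => ‖chi u v - Q (chi u v)‖ ^ 2 / 2, ?_, ?_⟩
  · intro u v huv
    set j := chi u v - Q (chi u v) with hj
    have hjM : ∀ w ∈ M, inner ℝ w j = 0 := by
      intro w hw
      exact (Submodule.mem_orthogonal M j).mp (M.sub_starProjection_mem_orthogonal (chi u v)) w hw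
    have hanti : ∀ x y, j (x, y) = - j (y, x) := by
      intro x y
      have h1 := chi_anti u v x y
      have h2 := mem_range_anti (hQm (chi u v)) x y
      rw [hj, PiLp.sub_apply, PiLp.sub_apply, h1, h2]
      ring
    have hsupp : ∀ x y, ¬ G.Adj x y → j (x, y) = 0 := by
      intro x y hxy
      have h2 := mem_range_supp (hQm (chi u v)) (e := (x, y)) hxy
      rw [hj, PiLp.sub_apply, h2, chi_apply]
      have h3 : ¬ ((x, y) = (u, v)) := by
        intro hh
        simp only [Prod.mk.injEq] at hh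
        rw [hh.1, hh.2] at hxy
        exact hxy huv
      have h4 : ¬ ((x, y) = (v, u)) := by
        intro hh
        simp only [Prod.mk.injEq] at hh
        rw [hh.1, hh.2] at hxy
        exact hxy huv.symm
      rw [if_neg h3, if_neg h4]
      ring
    have hchij : inner ℝ (chi u v) j = ‖j‖ ^ 2 := by
      have h1 : chi u v = Q (chi u v) + j := by rw [hj]; abel
      conv_lhs => rw [h1]
      rw [inner_add_left, hjM _ (hQm _), real_inner_self_eq_norm_sq, zero_add]
    have hval : j (u, v) = ‖j‖ ^ 2 / 2 := by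
      rw [inner_chi, hanti v u] at hchij
      linarith
    refine ⟨⟨hanti, hsupp, ?_⟩, hval, ?_, by positivity⟩
    · intro a
      have h1 := hjM (dlt G (Pi.single a 1)) ⟨_, rfl⟩
      rw [PiLp.inner_apply, Fintype.sum_prod_type] at h1
      have h2 : ∀ x y, inner ℝ (dlt G (Pi.single a 1) (x, y)) (j (x, y)) =
          (if x = a then j (x, y) else 0) + (if y = a then j (y, x) else 0) := by
        intro x y
        rw [dlt_apply]
        simp only [RCLike.inner_apply, conj_trivial, Pi.single_apply]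
        by_cases hxy : G.Adj x y
        · rw [if_pos hxy, hanti y x]
          split_ifs <;> ring
        · rw [if_neg hxy, hsupp x y hxy, hsupp y x (fun h => hxy h.symm)]
          simp
      have h3 : ∑ x, ∑ y, inner ℝ (dlt G (Pi.single a 1) (x, y)) (j (x, y)) =
          2 * ∑ y, j (a, y) := by
        simp_rw [h2, Finset.sum_add_distrib]
        have h4 : ∑ x, ∑ y, (if x = a then j (x, y) else 0) = ∑ y, j (a, y) := by
          rw [Finset.sum_comm]
          refine Finset.sum_congr rfl fun y _ => ?_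
          rw [Finset.sum_ite_eq' Finset.univ a (fun x => j (x, y)), if_pos (Finset.mem_univ a)]
        have h5 : ∑ x, ∑ y, (if y = a then j (y, x) else 0) = ∑ y, j (a, y) := by
          refine Finset.sum_congr rfl fun x _ => ?_
          rw [Finset.sum_ite_eq' Finset.univ a (fun y => j (y, x)), if_pos (Finset.mem_univ a)]
        rw [h4, h5]
        ring
      rw [h3] at h1
      linarith
    · show ∑ x, ∑ y, (j (x, y)) ^ 2 = 2 * (‖j‖ ^ 2 / 2)
      rw [EuclideanSpace.real_norm_sq_eq, Fintype.sum_prod_type]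
      ring
  · -- Foster
    have hfr : Module.finrank ℝ M ≤ Fintype.card V := by
      have := LinearMap.finrank_range_le (dlt G)
      rwa [Module.finrank_fintype_fun_eq_card] at this
    set b := stdOrthonormalBasis ℝ M with hb
    have h1 : ∀ e ∈ Finset.univ.filter (fun e : V × V => G.Adj e.1 e.2),
        1 - ‖chi e.1 e.2 - Q (chi e.1 e.2)‖ ^ 2 / 2 = ∑ i, 2 * ((b i : EuclideanSpace ℝ (V × V)) e) ^ 2 := by
      rintro ⟨u, v⟩ he
      rw [Finset.mem_filter] at he
      have huv : G.Adj u v := he.2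
      simp only
      have h2 : ‖chi u v‖ ^ 2 = ‖Q (chi u v)‖ ^ 2 + ‖chi u v - Q (chi u v)‖ ^ 2 := by
        have h3 : inner ℝ (Q (chi u v)) (chi u v - Q (chi u v)) = 0 :=
          (Submodule.mem_orthogonal M _).mp (M.sub_starProjection_mem_orthogonal (chi u v)) _ (hQm _)
        have h4 : chi u v = Q (chi u v) + (chi u v - Q (chi u v)) := by abel
        conv_lhs => rw [h4]
        rw [norm_add_sq_real, h3]
        ring
      rw [chi_norm_sq huv.ne] at h2
      have h5 : ‖Q (chi u v)‖ ^ 2 = ∑ i, 4 * ((b i : EuclideanSpace ℝ (V × V)) (u, v)) ^ 2 := by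
        have h6 : ‖Q (chi u v)‖ = ‖M.orthogonalProjectionOnto (chi u v)‖ := rfl
        rw [h6, ← b.sum_sq_norm_inner_right]
        refine Finset.sum_congr rfl fun i _ => ?_
        rw [Submodule.inner_orthogonalProjectionOnto_eq_of_mem_left, real_inner_comm, inner_chi,
          mem_range_anti (b i).2 v u, Real.norm_eq_abs, sq_abs]
        ring
      have h7 : ∑ i, 2 * ((b i : EuclideanSpace ℝ (V × V)) (u, v)) ^ 2 =
          (∑ i, 4 * ((b i : EuclideanSpace ℝ (V × V)) (u, v)) ^ 2) / 2 := by
        rw [Finset.sum_div]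
        refine Finset.sum_congr rfl fun i _ => ?_
        ring
      rw [h7, ← h5]
      linarith
    rw [Finset.sum_congr rfl h1, Finset.sum_comm]
    have h8 : ∀ i ∈ (Finset.univ : Finset (Fin (Module.finrank ℝ M))),
        ∑ e ∈ Finset.univ.filter (fun e : V × V => G.Adj e.1 e.2),
          2 * ((b i : EuclideanSpace ℝ (V × V)) e) ^ 2 ≤ 2 := by
      intro i _
      have h9 : ‖(b i : EuclideanSpace ℝ (V × V))‖ ^ 2 = 1 := by
        have : ‖(b i : EuclideanSpace ℝ (V × V))‖ = 1 := b.orthonormal.1 i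
        rw [this]; norm_num
      rw [EuclideanSpace.real_norm_sq_eq] at h9
      rw [← Finset.mul_sum]
      have h10 : ∑ e ∈ Finset.univ.filter (fun e : V × V => G.Adj e.1 e.2),
          ((b i : EuclideanSpace ℝ (V × V)) e) ^ 2 ≤
          ∑ e, ((b i : EuclideanSpace ℝ (V × V)) e) ^ 2 :=
        Finset.sum_le_sum_of_subset_of_nonneg (Finset.filter_subset _ _) (fun _ _ _ => sq_nonneg _)
      linarith
    refine (Finset.sum_le_sum h8).trans ?_
    rw [Finset.sum_const, Finset.card_univ, Fintype.card_fin, nsmul_eq_mul]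
    have : (Module.finrank ℝ M : ℝ) ≤ Fintype.card V := by exact_mod_cast hfr
    linarith

end foster

section nw

variable {V : Type} [Fintype V]

/-- the flow through the cut -/
lemma sum_cut {H : SimpleGraph V} {u v : V} {j : V → V → ℝ} (huv : ¬ H.Adj u v)
    (hanti : ∀ x y, j x y = - j y x)
    (hsupp : ∀ x y, ¬ H.Adj x y → ¬ (x = u ∧ y = v) → ¬ (x = v ∧ y = u) → j x y = 0)
    (hdiv : ∀ x, ∑ y, j x y = 0) {k : ℕ} (hv : v ∉ bl H u k) :
    ∑ e ∈ cut H u k, j e.1 e.2 = - j u v := by
  set B := bl H u k with hB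
  have h1 : ∑ x ∈ B, ∑ y, j x y = 0 := Finset.sum_eq_zero (fun x _ => hdiv x)
  have h2 : ∑ x ∈ B, ∑ y ∈ B, j x y = 0 := by
    have h3 : ∑ x ∈ B, ∑ y ∈ B, j x y = - ∑ x ∈ B, ∑ y ∈ B, j x y := by
      conv_lhs => rw [Finset.sum_comm]
      rw [← Finset.sum_neg_distrib]
      refine Finset.sum_congr rfl fun x _ => ?_
      rw [← Finset.sum_neg_distrib]
      exact Finset.sum_congr rfl fun y _ => hanti y x
    linarith
  have h3 : ∑ x ∈ B, ∑ y ∈ Bᶜ, j x y = 0 := by
    have h4 : ∀ x ∈ B, ∑ y, j x y = ∑ y ∈ B, j x y + ∑ y ∈ Bᶜ, j x y := fun x _ =>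
      (Finset.sum_add_sum_compl B _).symm
    rw [Finset.sum_congr rfl h4, Finset.sum_add_distrib, h2, zero_add] at h1
    exact h1
  rw [← Finset.sum_product' B Bᶜ (fun x y => j x y)] at h3
  have key : ∀ e ∈ B ×ˢ Bᶜ, j e.1 e.2 =
      (if e ∈ cut H u k then j e.1 e.2 else 0) + (if e = (u, v) then j e.1 e.2 else 0) := by
    rintro ⟨x, y⟩ he
    simp only [Finset.mem_product, Finset.mem_compl] at he
    by_cases hxy : H.Adj x y
    · have h5 : (x, y) ∈ cut H u k := mem_cut.mpr ⟨he.1, he.2, hxy⟩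
      have h6 : ¬ ((x, y) = (u, v)) := by
        intro hh
        simp only [Prod.mk.injEq] at hh
        rw [hh.1, hh.2] at hxy
        exact huv hxy
      rw [if_pos h5, if_neg h6, add_zero]
    · have h5 : (x, y) ∉ cut H u k := fun hh => hxy (mem_cut.mp hh).2.2
      rw [if_neg h5, zero_add]
      split_ifs with h6
      · rfl
      · apply hsupp x y hxy
        · rintro ⟨rfl, rfl⟩
          exact h6 rfl
        · rintro ⟨rfl, rfl⟩
          exact hv he.1
  rw [Finset.sum_congr rfl key, Finset.sum_add_distrib, Finset.sum_ite_mem, Finset.sum_ite_eq'] at h3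
  have h7 : (u, v) ∈ B ×ˢ Bᶜ := by
    simp only [Finset.mem_product, Finset.mem_compl]
    exact ⟨self_mem_bl H u k, hv⟩
  have h8 : (B ×ˢ Bᶜ) ∩ cut H u k = cut H u k := by
    apply Finset.inter_eq_right.mpr
    intro e he
    have := mem_cut.mp he
    simp only [Finset.mem_product, Finset.mem_compl]
    exact ⟨this.1, this.2.1⟩
  rw [if_pos h7, h8] at h3
  linarith

/-- Nash-Williams in one ball -/
lemma nw_ball {H : SimpleGraph V} {u v : V} {j : V → V → ℝ} (huv : ¬ H.Adj u v)
    (hdeg : ∀ v : V, (Finset.univ.filter (fun w => H.Adj v w)).card ≤ 3)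
    (hu : (Finset.univ.filter (fun w => H.Adj u w)).card ≤ 2)
    (hanti : ∀ x y, j x y = - j y x)
    (hsupp : ∀ x y, ¬ H.Adj x y → ¬ (x = u ∧ y = v) → ¬ (x = v ∧ y = u) → j x y = 0)
    (hdiv : ∀ x, ∑ y, j x y = 0) (k : ℕ) (hv : v ∉ bl H u k) :
    (j u v) ^ 2 * (2 - 2 / 2 ^ k) ≤ ∑ e ∈ bl H u k ×ˢ bl H u k, (j e.1 e.2) ^ 2 := by
  induction k with
  | zero =>
    have : (0 : ℝ) ≤ ∑ e ∈ bl H u 0 ×ˢ bl H u 0, (j e.1 e.2) ^ 2 :=
      Finset.sum_nonneg (fun _ _ => sq_nonneg _)
    simpa using this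
  | succ k ih =>
    have hvk : v ∉ bl H u k := fun h => hv (bl_subset_succ H u k h)
    have ih' := ih hvk
    have hcut := sum_cut huv hanti hsupp hdiv hvk
    have hcs := sq_sum_le_card_mul_sum_sq (s := cut H u k) (f := fun e => j e.1 e.2)
    rw [hcut] at hcs
    have hcard : ((cut H u k).card : ℝ) ≤ 2 ^ (k + 1) := by exact_mod_cast card_cut_le hdeg hu k
    set T := ∑ e ∈ cut H u k, (j e.1 e.2) ^ 2 with hT
    have hT0 : 0 ≤ T := Finset.sum_nonneg (fun _ _ => sq_nonneg _)
    have hP : (j u v) ^ 2 ≤ 2 ^ (k + 1) * T := by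
      have h1 : (- j u v) ^ 2 = (j u v) ^ 2 := by ring
      rw [h1] at hcs
      exact hcs.trans (mul_le_mul_of_nonneg_right hcard hT0)
    -- enlarge
    have hswap : ∑ e ∈ (cut H u k).map (Equiv.prodComm V V).toEmbedding, (j e.1 e.2) ^ 2 = T := by
      rw [Finset.sum_map]
      refine Finset.sum_congr rfl fun e _ => ?_
      show (j e.2 e.1) ^ 2 = (j e.1 e.2) ^ 2
      rw [hanti e.2 e.1]
      ring
    have hin : ∀ e ∈ cut H u k, e.2 ∈ bl H u (k + 1) := fun e he =>
      mem_bl_succ.mpr (Or.inr ⟨e.1, (mem_cut.mp he).1, (mem_cut.mp he).2.2⟩)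
    have hd1 : Disjoint (bl H u k ×ˢ bl H u k) (cut H u k) := by
      rw [Finset.disjoint_left]
      intro e he he'
      rw [Finset.mem_product] at he
      exact (mem_cut.mp he').2.1 he.2
    have hd2 : Disjoint (bl H u k ×ˢ bl H u k ∪ cut H u k)
        ((cut H u k).map (Equiv.prodComm V V).toEmbedding) := by
      rw [Finset.disjoint_left]
      intro e he he'
      obtain ⟨e', he1, rfl⟩ := Finset.mem_map.mp he'
      have h1 := mem_cut.mp he1
      rcases Finset.mem_union.mp he with h | h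
      · rw [Finset.mem_product] at h
        exact h1.2.1 h.1
      · exact h1.2.1 (mem_cut.mp h).1
    have hsub : (bl H u k ×ˢ bl H u k ∪ cut H u k) ∪
        ((cut H u k).map (Equiv.prodComm V V).toEmbedding) ⊆ bl H u (k + 1) ×ˢ bl H u (k + 1) := by
      intro e he
      rw [Finset.mem_product]
      rcases Finset.mem_union.mp he with h | h
      · rcases Finset.mem_union.mp h with h | h
        · rw [Finset.mem_product] at h
          exact ⟨bl_subset_succ H u k h.1, bl_subset_succ H u k h.2⟩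
        · exact ⟨bl_subset_succ H u k (mem_cut.mp h).1, hin e h⟩
      · obtain ⟨e', he1, rfl⟩ := Finset.mem_map.mp h
        exact ⟨hin e' he1, bl_subset_succ H u k (mem_cut.mp he1).1⟩
    have hsum := Finset.sum_le_sum_of_subset_of_nonneg (f := fun e : V × V => (j e.1 e.2) ^ 2) hsub
      (fun _ _ _ => sq_nonneg _)
    rw [Finset.sum_union hd2, Finset.sum_union hd1, hswap] at hsum
    refine le_trans ?_ hsum
    rw [← hT]
    have h2 : (j u v) ^ 2 * (2 - 2 / 2 ^ (k + 1)) =
        (j u v) ^ 2 * (2 - 2 / 2 ^ k) + 2 * ((j u v) ^ 2 / 2 ^ (k + 1)) := by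
      rw [pow_succ]
      field_simp
      ring
    have h3 : (j u v) ^ 2 / 2 ^ (k + 1) ≤ T := by
      rw [div_le_iff₀ (by positivity)]
      linarith
    rw [h2]
    linarith

lemma delE_comm (G : SimpleGraph V) (u v : V) : delE G u v = delE G v u := by
  ext x y
  simp only [delE]
  tauto

lemma delE_adj {G : SimpleGraph V} {u v x y : V} :
    (delE G u v).Adj x y ↔ G.Adj x y ∧ ¬ ((x = u ∧ y = v) ∨ (x = v ∧ y = u)) := Iff.rfl

lemma deg_le_three {G : SimpleGraph V} (hG : G ∈ Cub V) {H : SimpleGraph V}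
    (hHG : ∀ x y, H.Adj x y → G.Adj x y) (x : V) :
    (Finset.univ.filter (fun w => H.Adj x w)).card ≤ 3 := by
  have h1 := (Finset.mem_filter.mp hG).2 x
  rw [← h1]
  exact Finset.card_le_card (Finset.monotone_filter_right _ (fun w _ h => hHG _ _ h))

lemma deg_delE {G : SimpleGraph V} (hG : G ∈ Cub V) {u v : V} (huv : G.Adj u v) :
    (Finset.univ.filter (fun w => (delE G u v).Adj u w)).card ≤ 2 := by
  have h1 := (Finset.mem_filter.mp hG).2 u
  have h2 : Finset.univ.filter (fun w => (delE G u v).Adj u w) ⊆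
      (Finset.univ.filter (fun w => G.Adj u w)).erase v := by
    intro w hw
    rw [Finset.mem_filter] at hw
    rw [Finset.mem_erase, Finset.mem_filter]
    exact ⟨fun h => hw.2.2 (Or.inl ⟨rfl, h⟩), Finset.mem_univ _, hw.2.1⟩
  have h3 := Finset.card_le_card h2
  have h4 : ((Finset.univ.filter (fun w => G.Adj u w)).erase v).card + 1 =
      (Finset.univ.filter (fun w => G.Adj u w)).card :=
    Finset.card_erase_add_one (by simp [huv])
  omega

/-- The energy of a flow through an edge not lying in a short cycle. -/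
theorem nw {G : SimpleGraph V} (hG : G ∈ Cub V) {u v : V} (huv : G.Adj u v) {R : ℕ}
    (hd : Disjoint (bl (delE G u v) u R) (bl (delE G u v) v R)) {j : V → V → ℝ} (hj : Circ G j) :
    2 * (j u v) ^ 2 * (3 - 2 / 2 ^ R) ≤ ∑ x, ∑ y, (j x y) ^ 2 := by
  set H := delE G u v with hH
  have hHG : ∀ x y, H.Adj x y → G.Adj x y := fun x y h => h.1
  have hnuv : ¬ H.Adj u v := fun h => h.2 (Or.inl ⟨rfl, rfl⟩)
  have hnvu : ¬ H.Adj v u := fun h => hnuv h.symm
  have hsupp : ∀ x y, ¬ H.Adj x y → ¬ (x = u ∧ y = v) → ¬ (x = v ∧ y = u) → j x y = 0 := by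
    intro x y h1 h2 h3
    apply hj.supp
    intro h4
    exact h1 ⟨h4, fun h5 => h5.elim h2 h3⟩
  have hv : v ∉ bl H u R := fun h => (Finset.disjoint_left.mp hd h) (self_mem_bl H v R)
  have hu : u ∉ bl H v R := fun h => (Finset.disjoint_left.mp hd (self_mem_bl H u R)) h
  have h1 := nw_ball hnuv (deg_le_three hG hHG) (deg_delE hG huv) hj.anti hsupp hj.div R hv
  have hdv : (Finset.univ.filter (fun w => H.Adj v w)).card ≤ 2 := by
    rw [hH, delE_comm]
    exact deg_delE hG huv.symm
  have h2 := nw_ball hnvu (deg_le_three hG hHG) hdv hj.anti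
    (fun x y a b c => hsupp x y a c b) hj.div R hu
  set B := bl H u R with hB
  set B' := bl H v R with hB'
  have hne : (u, v) ≠ (v, u) := fun h => huv.ne (congrArg Prod.fst h)
  have hd1 : Disjoint (B ×ˢ B) (B' ×ˢ B') := by
    rw [Finset.disjoint_left]
    intro e he he'
    rw [Finset.mem_product] at he he'
    exact Finset.disjoint_left.mp hd he.1 he'.1
  have hd2 : Disjoint (B ×ˢ B ∪ B' ×ˢ B') {(u, v), (v, u)} := by
    rw [Finset.disjoint_left]
    intro e he he'
    rw [Finset.mem_insert, Finset.mem_singleton] at he'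
    rcases Finset.mem_union.mp he with h | h
    · rw [Finset.mem_product] at h
      rcases he' with rfl | rfl
      · exact hv h.2
      · exact hv h.1
    · rw [Finset.mem_product] at h
      rcases he' with rfl | rfl
      · exact hu h.1
      · exact hu h.2
  have hsum := Finset.sum_le_sum_of_subset_of_nonneg (f := fun e : V × V => (j e.1 e.2) ^ 2)
    (Finset.subset_univ ((B ×ˢ B ∪ B' ×ˢ B') ∪ {(u, v), (v, u)})) (fun _ _ _ => sq_nonneg _)
  rw [Finset.sum_union hd2, Finset.sum_union hd1, Finset.sum_pair hne, Fintype.sum_prod_type] at hsum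
  simp only at hsum
  rw [hj.anti v u] at hsum h2
  have h3 : (- j u v) ^ 2 = (j u v) ^ 2 := by ring
  rw [h3] at hsum h2
  refine le_trans ?_ hsum
  have h4 : 2 * (j u v) ^ 2 * (3 - 2 / 2 ^ R) =
      (j u v) ^ 2 * (2 - 2 / 2 ^ R) + (j u v) ^ 2 * (2 - 2 / 2 ^ R) + ((j u v) ^ 2 + (j u v) ^ 2) := by
    ring
  rw [h4]
  exact add_le_add (add_le_add h1 h2) le_rfl

end nw

section count

variable {V : Type} [Fintype V]

lemma card_adj {G : SimpleGraph V} (hG : G ∈ Cub V) :
    (Finset.univ.filter (fun e : V × V => G.Adj e.1 e.2)).card = 3 * Fintype.card V := by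
  have h1 : (Finset.univ.filter (fun e : V × V => G.Adj e.1 e.2)).card =
      ∑ v : V, ((Finset.univ.filter (fun e : V × V => G.Adj e.1 e.2)).filter
        (fun e => e.1 = v)).card :=
    Finset.card_eq_sum_card_fiberwise (fun e _ => Finset.mem_univ e.1)
  rw [h1]
  have h2 : ∀ v : V, ((Finset.univ.filter (fun e : V × V => G.Adj e.1 e.2)).filter
        (fun e => e.1 = v)).card = 3 := by
    intro v
    rw [← (Finset.mem_filter.mp hG).2 v]
    refine Finset.card_bij (fun e _ => e.2) ?_ ?_ ?_
    · intro e he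
      simp only [Finset.mem_filter, Finset.mem_univ, true_and] at he ⊢
      rw [← he.2]
      exact he.1
    · intro e he e' he' h
      simp only [Finset.mem_filter, Finset.mem_univ, true_and] at he he'
      exact Prod.ext (he.2.trans he'.2.symm) h
    · intro w hw
      simp only [Finset.mem_filter, Finset.mem_univ, true_and] at hw
      exact ⟨(v, w), by simp [hw], rfl⟩
  rw [Finset.sum_congr rfl (fun v _ => h2 v), Finset.sum_const, Finset.card_univ, smul_eq_mul,
    mul_comm]

/-- oriented edges with an end in `D` -/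
lemma card_touch_le {G : SimpleGraph V} (hG : G ∈ Cub V) (D : Finset V) :
    (Finset.univ.filter (fun e : V × V => G.Adj e.1 e.2 ∧ (e.1 ∈ D ∨ e.2 ∈ D))).card ≤
      6 * D.card := by
  have h1 : Finset.univ.filter (fun e : V × V => G.Adj e.1 e.2 ∧ (e.1 ∈ D ∨ e.2 ∈ D)) ⊆
      (D.biUnion (fun x => (Finset.univ.filter (fun w => G.Adj x w)).image (fun w => (x, w)))) ∪
      (D.biUnion (fun x => (Finset.univ.filter (fun w => G.Adj x w)).image (fun w => (w, x)))) := by
    rintro ⟨x, y⟩ he
    simp only [Finset.mem_filter, Finset.mem_univ, true_and] at he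
    rcases he.2 with h | h
    · refine Finset.mem_union_left _ (Finset.mem_biUnion.mpr ⟨x, h, ?_⟩)
      exact Finset.mem_image.mpr ⟨y, by simp [he.1], rfl⟩
    · refine Finset.mem_union_right _ (Finset.mem_biUnion.mpr ⟨y, h, ?_⟩)
      exact Finset.mem_image.mpr ⟨x, by simp [he.1.symm], rfl⟩
  have h2 : ∀ x ∈ D, ((Finset.univ.filter (fun w => G.Adj x w)).image (fun w => (x, w))).card ≤ 3 :=
    fun x _ => Finset.card_image_le.trans (deg_le_three hG (fun _ _ h => h) x)
  have h3 : ∀ x ∈ D, ((Finset.univ.filter (fun w => G.Adj x w)).image (fun w => (w, x))).card ≤ 3 :=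
    fun x _ => Finset.card_image_le.trans (deg_le_three hG (fun _ _ h => h) x)
  have h4 := Finset.card_le_card h1
  have h5 := Finset.card_union_le
    (D.biUnion (fun x => (Finset.univ.filter (fun w => G.Adj x w)).image (fun w => (x, w))))
    (D.biUnion (fun x => (Finset.univ.filter (fun w => G.Adj x w)).image (fun w => (w, x))))
  have h6 := Finset.card_biUnion_le_card_mul _ _ _ h2
  have h7 := Finset.card_biUnion_le_card_mul _ _ _ h3
  omega

lemma disj_far {G H : SimpleGraph V} (hHG : ∀ a b, H.Adj a b → G.Adj a b) {p r : V} {R : ℕ}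
    (h : r ∉ bl G p (2 * R)) : Disjoint (bl H p R) (bl H r R) := by
  rw [Finset.disjoint_left]
  intro z hz hz'
  apply h
  have h1 := mem_bl_trans (bl_mono_graph hHG p R hz) (mem_bl_symm (bl_mono_graph hHG r R hz'))
  rwa [← two_mul] at h1

lemma disj_near {H' H : SimpleGraph V} (hHH : ∀ a b, H.Adj a b → H'.Adj a b) {p q : V} {R : ℕ}
    (h : Disjoint (bl H' p R) (bl H' q R)) : Disjoint (bl H p R) (bl H q R) :=
  Finset.disjoint_of_subset_left (bl_mono_graph hHH p R)
    (Finset.disjoint_of_subset_right (bl_mono_graph hHH q R) h)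

end count

theorem good_count (ε : ℝ) (h : 0 < ε) : ∃ R0 : ℕ, ∀ R ≥ R0, ∃ δ > (0 : ℝ), ∃ n0 : ℕ,
    ∀ (V : Type) [Fintype V] (G : SimpleGraph V), G ∈ Cub V → n0 ≤ Fintype.card V →
      ((shortE G R).card : ℝ) ≤ δ * Fintype.card V →
      ((Fintype.card V : ℝ) ^ 2) ≤ ((Finset.univ.filter (fun x : V × V × V × V =>
        GoodPair G R ε x.1 x.2.1 x.2.2.1 x.2.2.2)).card : ℝ) := by
  obtain ⟨R0, hR0⟩ : ∃ R0 : ℕ, 20 / min ε 1 < 2 ^ R0 := pow_unbounded_of_one_lt _ (by norm_num)
  refine ⟨R0, fun R hR => ⟨ε / (10 * (3 + ε)), by positivity, 12 * 16 ^ R, ?_⟩⟩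
  intro V _ G hG hn hshort
  set η : ℝ := 2 / 2 ^ R with hη
  have hm0 : 0 < min ε 1 := lt_min h one_pos
  have hη0 : 0 < η := by positivity
  have hη1 : η ≤ min ε 1 / 10 := by
    have h1 : (2 : ℝ) ^ R0 ≤ 2 ^ R := pow_le_pow_right₀ (by norm_num) hR
    have h2 : 20 / min ε 1 < 2 ^ R := hR0.trans_le h1
    rw [div_lt_iff₀ hm0] at h2
    rw [hη, div_le_div_iff₀ (by positivity) (by norm_num)]
    linarith
  have hηε : η ≤ ε / 10 := hη1.trans (by have := min_le_left ε 1; linarith)
  have hη2 : η ≤ 1 / 10 := hη1.trans (by have := min_le_right ε 1; linarith)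
  obtain ⟨J, P, hJ, hF⟩ := foster G
  set n : ℝ := (Fintype.card V : ℝ) with hndef
  have hn0 : 0 ≤ n := Nat.cast_nonneg _
  set A := Finset.univ.filter (fun e : V × V => G.Adj e.1 e.2) with hA
  have hAcard : (A.card : ℝ) = 3 * n := by
    rw [hA, card_adj hG]; push_cast; rfl
  set L : ℝ := 1 / (3 + ε) with hL
  set U : ℝ := 1 / (3 - η) with hU
  have hUL : 0 ≤ U - L := by
    rw [hU, hL, sub_nonneg]
    apply one_div_le_one_div_of_le <;> linarith
  set F := Finset.univ.filter (fun e : V × V => G.Adj e.1 e.2 ∧ e ∉ shortE G R ∧ L ≤ P e.1 e.2)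
    with hFdef
  have hP1 : ∀ u v, G.Adj u v → P u v ≤ 1 := by
    intro u v huv
    obtain ⟨hc, h1, h2, h3⟩ := hJ u v huv
    have hne : (u, v) ≠ (v, u) := fun h => huv.ne (congrArg Prod.fst h)
    have hsum := Finset.sum_le_sum_of_subset_of_nonneg (f := fun e : V × V => (J u v e.1 e.2) ^ 2)
      (Finset.subset_univ {(u, v), (v, u)}) (fun _ _ _ => sq_nonneg _)
    rw [Finset.sum_pair hne, Fintype.sum_prod_type] at hsum
    simp only at hsum
    rw [h2, hc.anti v u, h1] at hsum
    by_contra hcon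
    push Not at hcon
    nlinarith
  have hPU : ∀ u v, G.Adj u v → (u, v) ∉ shortE G R → P u v ≤ U := by
    intro u v huv hns
    obtain ⟨hc, h1, h2, h3⟩ := hJ u v huv
    have hd : Disjoint (bl (delE G u v) u R) (bl (delE G u v) v R) := by
      by_contra hcon
      exact hns (Finset.mem_filter.mpr ⟨Finset.mem_univ _, huv, hcon⟩)
    have h4 := nw hG huv hd hc
    rw [h1, h2, ← hη] at h4
    rw [hU, le_div_iff₀ (by linarith)]
    by_contra hcon
    push Not at hcon
    have h5 : 0 < P u v := by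
      by_contra h6
      have : P u v = 0 := le_antisymm (not_lt.mp h6) h3
      rw [this] at hcon
      linarith
    nlinarith
  -- many fine edges
  have hFcard : 2 * n ≤ (F.card : ℝ) := by
    have hterm : ∀ e ∈ A, (1 - L) - (if e ∈ shortE G R then 1 else 0) -
        (if e ∈ F then (U - L) else 0) ≤ 1 - P e.1 e.2 := by
      intro e he
      have hadj : G.Adj e.1 e.2 := (Finset.mem_filter.mp he).2
      have hL0 : 0 ≤ L := by positivity
      by_cases hs : e ∈ shortE G R
      · have hnF : e ∉ F := fun hh => (Finset.mem_filter.mp hh).2.2.1 hs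
        rw [if_pos hs, if_neg hnF]
        have := hP1 e.1 e.2 hadj
        linarith
      · rw [if_neg hs]
        by_cases heF : e ∈ F
        · rw [if_pos heF]
          have := hPU e.1 e.2 hadj hs
          linarith
        · rw [if_neg heF]
          have : P e.1 e.2 < L := by
            by_contra hh
            exact heF (Finset.mem_filter.mpr ⟨Finset.mem_univ _, hadj, hs, not_lt.mp hh⟩)
          linarith
    have hsum := Finset.sum_le_sum hterm
    rw [Finset.sum_sub_distrib, Finset.sum_sub_distrib, Finset.sum_const, nsmul_eq_mul, hAcard,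
      Finset.sum_ite_mem, Finset.sum_ite_mem, Finset.sum_const, Finset.sum_const, nsmul_eq_mul,
      nsmul_eq_mul] at hsum
    have h1 : ((A ∩ shortE G R).card : ℝ) ≤ (shortE G R).card := by
      exact_mod_cast Finset.card_le_card Finset.inter_subset_right
    have h2 : ((A ∩ F).card : ℝ) ≤ F.card := by
      exact_mod_cast Finset.card_le_card Finset.inter_subset_right
    have h3 : ((A ∩ F).card : ℝ) * (U - L) ≤ F.card * (U - L) :=
      mul_le_mul_of_nonneg_right h2 hUL
    have h4 : n * (1 - 3 * L) - ε / (10 * (3 + ε)) * n ≤ F.card * (U - L) := by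
      linarith
    have h5 : n * (1 - 3 * L) - ε / (10 * (3 + ε)) * n = (9 / 10 * ε * n) / (3 + ε) := by
      rw [hL]
      field_simp
      ring
    have h6 : U - L = (ε + η) / ((3 - η) * (3 + ε)) := by
      have : (3 - η) ≠ 0 := by linarith
      rw [hU, hL]
      field_simp
      ring
    rw [h5, h6] at h4
    have h7 : (9 / 10 * ε * n) * (3 - η) ≤ F.card * (ε + η) := by
      have h8 : (F.card : ℝ) * ((ε + η) / ((3 - η) * (3 + ε))) =
          (F.card * (ε + η) / (3 - η)) / (3 + ε) := by
        have : (3 - η) ≠ 0 := by linarith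
        field_simp
      rw [h8, div_le_div_iff_of_pos_right (by linarith), le_div_iff₀ (by linarith)] at h4
      exact h4
    have h9 : (9 / 10 * ε * n) * 2.9 ≤ F.card * (1.1 * ε) := by
      have h10 : (9 / 10 * ε * n) * 2.9 ≤ (9 / 10 * ε * n) * (3 - η) :=
        mul_le_mul_of_nonneg_left (by linarith) (by positivity)
      have h11 : (F.card : ℝ) * (ε + η) ≤ F.card * (1.1 * ε) :=
        mul_le_mul_of_nonneg_left (by linarith) (Nat.cast_nonneg _)
      linarith
    have h12 : ε * (2.61 * n) ≤ ε * (1.1 * F.card) := by nlinarith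
    have h13 := le_of_mul_le_mul_left h12 h
    linarith
  -- pairs
  set bad : V × V → Finset (V × V) := fun e => Finset.univ.filter (fun e' : V × V =>
    G.Adj e'.1 e'.2 ∧ (e'.1 ∈ bl G e.1 (2 * R) ∪ bl G e.2 (2 * R) ∨
      e'.2 ∈ bl G e.1 (2 * R) ∪ bl G e.2 (2 * R))) with hbad
  have hbadcard : ∀ e, (bad e).card ≤ 12 * 16 ^ R := by
    intro e
    have h1 := card_touch_le hG (bl G e.1 (2 * R) ∪ bl G e.2 (2 * R))
    have h2 := Finset.card_union_le (bl G e.1 (2 * R)) (bl G e.2 (2 * R))
    have h3 := card_bl_le (deg_le_three hG (fun _ _ h => h)) e.1 (2 * R)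
    have h4 := card_bl_le (deg_le_three hG (fun _ _ h => h)) e.2 (2 * R)
    have h5 : (4 : ℕ) ^ (2 * R) = 16 ^ R := by rw [pow_mul]; norm_num
    rw [h5] at h3 h4
    have h6 : (bad e).card ≤ 6 * (bl G e.1 (2 * R) ∪ bl G e.2 (2 * R)).card := h1
    omega
  have hcount : (F.sigma (fun e => F \ bad e)).card ≤ (Finset.univ.filter
      (fun x : V × V × V × V => GoodPair G R ε x.1 x.2.1 x.2.2.1 x.2.2.2)).card := by
    refine Finset.card_le_card_of_injOn (fun s => (s.1.1, s.1.2, s.2.1, s.2.2)) ?_ ?_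
    · rintro ⟨⟨p, q⟩, ⟨r, s⟩⟩ hs
      rw [Finset.mem_coe, Finset.mem_sigma, Finset.mem_sdiff] at hs
      obtain ⟨h1, h2, h3⟩ := hs
      simp only at h1 h2 h3
      have h1' := (Finset.mem_filter.mp h1).2
      have h2' := (Finset.mem_filter.mp h2).2
      simp only at h1' h2'
      have hr : r ∉ bl G p (2 * R) ∪ bl G q (2 * R) := fun hh => h3
        (Finset.mem_filter.mpr ⟨Finset.mem_univ _, h2'.1, Or.inl hh⟩)
      have hs : s ∉ bl G p (2 * R) ∪ bl G q (2 * R) := fun hh => h3
        (Finset.mem_filter.mpr ⟨Finset.mem_univ _, h2'.1, Or.inr hh⟩)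
      rw [Finset.mem_union, not_or] at hr hs
      rw [Finset.mem_coe, Finset.mem_filter]
      refine ⟨Finset.mem_univ _, ?_⟩
      simp only
      have hsub : ∀ a b, (delE (delE G p q) r s).Adj a b → G.Adj a b := fun a b hh => hh.1.1
      have hsub1 : ∀ a b, (delE (delE G p q) r s).Adj a b → (delE G p q).Adj a b :=
        fun a b hh => hh.1
      have hsub2 : ∀ a b, (delE (delE G p q) r s).Adj a b → (delE G r s).Adj a b :=
        fun a b hh => ⟨hh.1.1, hh.2⟩
      have hd1 : Disjoint (bl (delE G p q) p R) (bl (delE G p q) q R) := by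
        by_contra hcon
        exact h1'.2.1 (Finset.mem_filter.mpr ⟨Finset.mem_univ _, h1'.1, hcon⟩)
      have hd2 : Disjoint (bl (delE G r s) r R) (bl (delE G r s) s R) := by
        by_contra hcon
        exact h2'.2.1 (Finset.mem_filter.mpr ⟨Finset.mem_univ _, h2'.1, hcon⟩)
      have hflow : ∀ u v, G.Adj u v → L ≤ P u v →
          ∃ j : V → V → ℝ, Circ G j ∧ j u v = 1 ∧ ∑ x, ∑ y, (j x y) ^ 2 ≤ 2 * (3 + ε) := by
        intro u v huv hP
        obtain ⟨hc, e1, e2, e3⟩ := hJ u v huv
        have hL0 : 0 < L := by positivity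
        have hP0 : 0 < P u v := lt_of_lt_of_le hL0 hP
        refine ⟨fun x y => J u v x y / P u v, ⟨?_, ?_, ?_⟩, ?_, ?_⟩
        · intro x y
          rw [hc.anti x y]
          ring
        · intro x y hxy
          rw [hc.supp x y hxy, zero_div]
        · intro x
          rw [← Finset.sum_div, hc.div x, zero_div]
        · simp only
          rw [e1, div_self hP0.ne']
        · have e4 : ∑ x, ∑ y, (J u v x y / P u v) ^ 2 = 2 / P u v := by
            simp_rw [div_pow]
            simp_rw [← Finset.sum_div]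
            rw [e2]
            field_simp
          rw [e4, div_le_iff₀ hP0]
          have e5 : L * (3 + ε) = 1 := by rw [hL]; field_simp
          nlinarith
      exact {
        pq := h1'.1
        rs := h2'.1
        dpq := disj_near hsub1 hd1
        dpr := disj_far hsub hr.1
        dps := disj_far hsub hs.1
        dqr := disj_far hsub hr.2
        dqs := disj_far hsub hs.2
        drs := disj_near hsub2 hd2
        flow1 := hflow p q h1'.1 h1'.2.2
        flow2 := hflow r s h2'.1 h2'.2.2 }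
    · rintro ⟨⟨p, q⟩, ⟨r, s⟩⟩ _ ⟨⟨p', q'⟩, ⟨r', s'⟩⟩ _ heq
      simp only [Prod.mk.injEq] at heq
      obtain ⟨rfl, rfl, rfl, rfl⟩ := heq
      rfl
  have hsig : (F.card : ℝ) * (F.card - 12 * 16 ^ R) ≤ ((F.sigma (fun e => F \ bad e)).card : ℝ) := by
    rw [Finset.card_sigma]
    push_cast
    have h1 : ∀ e ∈ F, (F.card : ℝ) - 12 * 16 ^ R ≤ ((F \ bad e).card : ℝ) := by
      intro e _
      have h2 := Finset.le_card_sdiff (bad e) F
      have h3 := hbadcard e
      have h4 : F.card ≤ (F \ bad e).card + 12 * 16 ^ R := by omega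
      have h5 : (F.card : ℝ) ≤ (F \ bad e).card + 12 * 16 ^ R := by exact_mod_cast h4
      linarith
    calc (F.card : ℝ) * (F.card - 12 * 16 ^ R) = ∑ _e ∈ F, ((F.card : ℝ) - 12 * 16 ^ R) := by
          rw [Finset.sum_const, nsmul_eq_mul]
      _ ≤ _ := Finset.sum_le_sum h1
  have hcount' : ((F.sigma (fun e => F \ bad e)).card : ℝ) ≤ ((Finset.univ.filter
      (fun x : V × V × V × V => GoodPair G R ε x.1 x.2.1 x.2.2.1 x.2.2.2)).card : ℝ) := by
    exact_mod_cast hcount
  refine le_trans ?_ (hsig.trans hcount')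
  have hnR : (12 * 16 ^ R : ℝ) ≤ n := by rw [hndef]; exact_mod_cast hn
  have h1 : n ≤ F.card - 12 * 16 ^ R := by linarith
  nlinarith

end Pool.Agent.Helper68.Kur
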