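import Mathlib

/-!
# Area inequality for a multivalued holomorphic function (module M2 for MP_8eda11_ag)
-/

set_option autoImplicit false

open MeasureTheory Filter Topology Set Metric

namespace Pool.Agent.Helper27.LinArea

/-- Near a zero with non-vanishing partial derivatives the zero set is a bi-Lipschitz graph. -/
lemma local_nbhd {Φ : ℂ × ℂ → ℂ} {a₀ b₀ : ℂ} {p₀ : ℂ × ℂ}
    (hs : HasStrictFDerivAt Φ
      (a₀ • ContinuousLinearMap.fst ℂ ℂ ℂ + b₀ • ContinuousLinearMap.snd ℂ ℂ ℂ) p₀)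
    (ha : a₀ ≠ 0) (hb : b₀ ≠ 0) :
    ∃ V : Set (ℂ × ℂ), IsOpen V ∧ p₀ ∈ V ∧ ∃ M : ℝ, ∀ p ∈ V, ∀ p' ∈ V, Φ p = 0 → Φ p' = 0 →
      ‖p.2 - p'.2‖ ≤ M * ‖p.1 - p'.1‖ ∧ ‖p.1 - p'.1‖ ≤ M * ‖p.2 - p'.2‖ := by
  set m := min ‖a₀‖ ‖b₀‖ with hm
  set A := max ‖a₀‖ ‖b₀‖ with hA
  have hm0 : 0 < m := lt_min (norm_pos_iff.mpr ha) (norm_pos_iff.mpr hb)
  have hA0 : 0 < A := lt_of_lt_of_le (norm_pos_iff.mpr ha) (le_max_left _ _)
  have h1 := hs.isLittleO.def (show 0 < m / 2 by positivity)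
  rw [nhds_prod_eq] at h1
  obtain ⟨W, hW, hW2⟩ := mem_prod_self_iff.mp h1
  obtain ⟨V, hVW, hVo, hpV⟩ := _root_.mem_nhds_iff.mp hW
  refine ⟨V, hVo, hpV, 2 * A / m + 1, ?_⟩
  intro p hp p' hp' hz hz'
  have h2 := hW2 (show (p, p') ∈ W ×ˢ W from ⟨hVW hp, hVW hp'⟩)
  simp only [Set.mem_ofPred_eq, hz, hz'] at h2
  set x := p.1 - p'.1 with hx
  set y := p.2 - p'.2 with hy
  have h3 : ‖a₀ * x + b₀ * y‖ ≤ m / 2 * max ‖x‖ ‖y‖ := by
    have e1 : (0 : ℂ) - 0 - (a₀ • ContinuousLinearMap.fst ℂ ℂ ℂ + b₀ • ContinuousLinearMap.snd ℂ ℂ ℂ)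
        (p - p') = -(a₀ * x + b₀ * y) := by
      simp [hx, hy]
    rw [e1, norm_neg, Prod.norm_def] at h2
    exact h2
  have hx0 := norm_nonneg x
  have hy0 := norm_nonneg y
  have hma : m ≤ ‖a₀‖ := min_le_left _ _
  have hmb : m ≤ ‖b₀‖ := min_le_right _ _
  have hAa : ‖a₀‖ ≤ A := le_max_left _ _
  have hAb : ‖b₀‖ ≤ A := le_max_right _ _
  have hM : 0 ≤ 2 * A / m := by positivity
  have key : ∀ c d : ℂ, ∀ X Y : ℂ, m ≤ ‖c‖ → ‖d‖ ≤ A → ‖c * X + d * Y‖ ≤ m / 2 * ‖X‖ →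
      ‖X‖ ≤ 2 * A / m * ‖Y‖ := by
    intro c d X Y hc hd h
    have e1 : ‖c * X‖ ≤ ‖c * X + d * Y‖ + ‖d * Y‖ := by
      have : c * X = (c * X + d * Y) - d * Y := by ring
      calc ‖c * X‖ = ‖(c * X + d * Y) - d * Y‖ := by rw [← this]
        _ ≤ _ := norm_sub_le _ _
    rw [norm_mul, norm_mul] at e1
    have e2 : m * ‖X‖ ≤ ‖c‖ * ‖X‖ := mul_le_mul_of_nonneg_right hc (norm_nonneg _)
    have e3 : ‖d‖ * ‖Y‖ ≤ A * ‖Y‖ := mul_le_mul_of_nonneg_right hd (norm_nonneg _)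
    have e4 : m * ‖X‖ ≤ 2 * A * ‖Y‖ := by linarith
    rw [div_mul_eq_mul_div, le_div_iff₀ hm0]
    linarith
  rcases le_total ‖y‖ ‖x‖ with hle | hle
  · rw [max_eq_left hle] at h3
    refine ⟨?_, ?_⟩
    · have : 0 ≤ 2 * A / m * ‖x‖ := by positivity
      linarith
    · have := key a₀ b₀ x y hma hAb h3
      linarith
  · rw [max_eq_right hle] at h3
    refine ⟨?_, ?_⟩
    · have := key b₀ a₀ y x hmb hAa (by rwa [add_comm] at h3)
      linarith
    · have : 0 ≤ 2 * A / m * ‖y‖ := by positivity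
      linarith

/-- derivative of a Lipschitz branch -/
lemma branch_deriv {Φ : ℂ × ℂ → ℂ} {a₁ b₁ : ℂ} {S : Set ℂ} {φ : ℂ → ℂ} {t₁ : ℂ}
    (hs : HasFDerivAt Φ
      (a₁ • ContinuousLinearMap.fst ℂ ℂ ℂ + b₁ • ContinuousLinearMap.snd ℂ ℂ ℂ) (t₁, φ t₁))
    (hb : b₁ ≠ 0) (ht₁ : t₁ ∈ S) (hz : ∀ t ∈ S, Φ (t, φ t) = 0) {M : ℝ}
    (hL : ∀ t ∈ S, ‖φ t - φ t₁‖ ≤ M * ‖t - t₁‖) :
    HasDerivWithinAt φ (-(a₁ / b₁)) S t₁ := by
  have hcont : Tendsto (fun t => (t, φ t)) (𝓝[S] t₁) (𝓝 (t₁, φ t₁)) := by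
    refine Tendsto.prodMk_nhds (tendsto_nhdsWithin_of_tendsto_nhds tendsto_id) ?_
    rw [tendsto_iff_norm_sub_tendsto_zero]
    have h1 : Tendsto (fun t : ℂ => M * ‖t - t₁‖) (𝓝[S] t₁) (𝓝 0) := by
      have : Tendsto (fun t : ℂ => M * ‖t - t₁‖) (𝓝 t₁) (𝓝 (M * ‖t₁ - t₁‖)) :=
        (by fun_prop : Continuous (fun t : ℂ => M * ‖t - t₁‖)).tendsto t₁
      rw [sub_self, norm_zero, mul_zero] at this
      exact tendsto_nhdsWithin_of_tendsto_nhds this
    refine squeeze_zero' (Eventually.of_forall fun _ => norm_nonneg _) ?_ h1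
    filter_upwards [self_mem_nhdsWithin] with t ht using hL t ht
  have h2 := (hasFDerivAt_iff_isLittleO.mp hs).comp_tendsto hcont
  have h3 : (fun t => (t, φ t) - (t₁, φ t₁)) =O[𝓝[S] t₁] (fun t => t - t₁) := by
    refine Asymptotics.IsBigO.of_bound (max 1 M) ?_
    filter_upwards [self_mem_nhdsWithin] with t ht
    have h4 := hL t ht
    rw [Prod.norm_def]
    simp only [Prod.fst_sub, Prod.snd_sub]
    have h5 := norm_nonneg (t - t₁)
    refine max_le ?_ ?_
    · nlinarith [le_max_left 1 M]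
    · nlinarith [le_max_right 1 M]
  have h6 : (fun t => a₁ * (t - t₁) + b₁ * (φ t - φ t₁)) =o[𝓝[S] t₁] (fun t => t - t₁) := by
    have h7 := (h2.trans_isBigO h3).neg_left
    refine h7.congr' ?_ (EventuallyEq.refl _ _)
    filter_upwards [self_mem_nhdsWithin] with t ht
    simp [hz t ht, hz t₁ ht₁]
  have h8 : (fun t => b₁⁻¹ * (a₁ * (t - t₁) + b₁ * (φ t - φ t₁))) =o[𝓝[S] t₁] (fun t => t - t₁) :=
    h6.const_mul_left _
  rw [hasDerivWithinAt_iff_isLittleO]
  refine h8.congr_left ?_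
  intro t
  simp only [smul_eq_mul]
  field_simp
  ring

/-- real determinant of the multiplication by a complex number -/
lemma det_mul (c : ℂ) :
    (((ContinuousLinearMap.smulRight (1 : ℂ →L[ℂ] ℂ) c).restrictScalars ℝ).det : ℝ) = ‖c‖ ^ 2 := by
  have h1 : (((ContinuousLinearMap.smulRight (1 : ℂ →L[ℂ] ℂ) c).restrictScalars ℝ).det : ℝ) =
      LinearMap.det ((LinearMap.mulLeft ℝ c)) := by
    unfold ContinuousLinearMap.det
    congr 1
    ext z <;> simp [mul_comm]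
  rw [h1]
  have h2 : LinearMap.det (LinearMap.mulLeft ℝ c) = Algebra.norm ℝ c := rfl
  rw [h2, Algebra.norm_complex_apply, Complex.normSq_eq_norm_sq]

section main

variable (Φ a b : ℂ × ℂ → ℂ) (O : Set ℂ)

/-- the zero set where the derivative of the branch does not vanish -/
def Cs : Set (ℂ × ℂ) := {p | p.1 ∈ O ∧ Φ p = 0 ∧ a p ≠ 0}

theorem area_ineq (Φ a b : ℂ × ℂ → ℂ) (ha : Continuous a) (hb : Continuous b)
    (hΦ : ∀ p, HasStrictFDerivAt Φ
      (a p • ContinuousLinearMap.fst ℂ ℂ ℂ + b p • ContinuousLinearMap.snd ℂ ℂ ℂ) p)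
    (O : Set ℂ) (hO : IsOpen O) (hb0 : ∀ t ∈ O, ∀ u, Φ (t, u) = 0 → b (t, u) ≠ 0)
    (rts : ℂ → Finset ℂ) (hrts : ∀ t ∈ O, ∀ u, u ∈ rts t ↔ Φ (t, u) = 0)
    (K : ℕ) (hK : ∀ᵐ u : ℂ, ({t | t ∈ O ∧ Φ (t, u) = 0} : Set ℂ).encard ≤ K)
    (h : ℂ → ENNReal) (hh : Measurable h) :
    ∫⁻ t in O, ∑ u ∈ rts t, h u * ‖a (t, u) / b (t, u)‖ₑ ^ 2 ≤ K * ∫⁻ u, h u := by
  classical
  set C : Set (ℂ × ℂ) := Cs Φ a O with hC
  have hΦc : Continuous Φ := continuous_iff_continuousAt.mpr fun p => (hΦ p).hasFDerivAt.continuousAt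
  have hCm : MeasurableSet C := by
    have h1 : C = (Prod.fst ⁻¹' O) ∩ ((Φ ⁻¹' {0}) ∩ (a ⁻¹' {0})ᶜ) := by
      ext p
      simp [hC, Cs]
    rw [h1]
    exact (hO.preimage continuous_fst).measurableSet.inter
      ((isClosed_singleton.preimage hΦc).measurableSet.inter
        (isClosed_singleton.preimage ha).measurableSet.compl)
  rcases Set.eq_empty_or_nonempty C with hCe | hCne
  · -- no contribution
    have h0 : ∫⁻ t in O, ∑ u ∈ rts t, h u * ‖a (t, u) / b (t, u)‖ₑ ^ 2 = 0 := by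
      rw [setLIntegral_congr_fun (g := fun _ => 0) hO.measurableSet]
      · simp
      · intro t ht
        refine Finset.sum_eq_zero fun u hu => ?_
        have h1 : a (t, u) = 0 := by
          by_contra hne
          have : (t, u) ∈ C := ⟨ht, (hrts t ht u).mp hu, hne⟩
          rw [hCe] at this
          exact this
        simp [h1]
    rw [h0]
    exact zero_le
  -- local neighbourhoods
  have hloc : ∀ p : ℂ × ℂ, ∃ V : Set (ℂ × ℂ), IsOpen V ∧ (p ∈ C → p ∈ V) ∧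
      ∃ M : ℝ, ∀ q ∈ V, ∀ q' ∈ V, Φ q = 0 → Φ q' = 0 →
      ‖q.2 - q'.2‖ ≤ M * ‖q.1 - q'.1‖ ∧ ‖q.1 - q'.1‖ ≤ M * ‖q.2 - q'.2‖ := by
    intro p
    by_cases hp : p ∈ C
    · obtain ⟨V, hV, hpV, hM⟩ := local_nbhd (hΦ p) hp.2.2 (hb0 p.1 hp.1 p.2 hp.2.1)
      exact ⟨V, hV, fun _ => hpV, hM⟩
    · exact ⟨∅, isOpen_empty, fun h => absurd h hp, 0, fun q hq => absurd hq (Set.notMem_empty q)⟩
  choose V hVo hVp M hM using hloc
  obtain ⟨T, hTC, hTc, hcov⟩ := TopologicalSpace.countable_cover_nhdsWithin (s := C) (f := V)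
    (fun p hp => mem_nhdsWithin_of_mem_nhds ((hVo p).mem_nhds (hVp p hp)))
  have hTne : T.Nonempty := by
    obtain ⟨p, hp⟩ := hCne
    obtain ⟨q, hq, _⟩ := Set.mem_iUnion₂.mp (hcov hp)
    exact ⟨q, hq⟩
  obtain ⟨e, he⟩ := hTc.exists_eq_range hTne
  set W : ℕ → Set (ℂ × ℂ) := fun i => V (e i) with hW
  have hWm : ∀ i, MeasurableSet (W i) := fun i => (hVo _).measurableSet
  set D : ℕ → Set (ℂ × ℂ) := fun i => C ∩ disjointed W i with hD
  have hDm : ∀ i, MeasurableSet (D i) := fun i => hCm.inter (MeasurableSet.disjointed hWm i)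
  have hDdisj : ∀ i j, i ≠ j → Disjoint (D i) (D j) := fun i j hij =>
    (disjoint_disjointed W hij).mono inter_subset_right inter_subset_right
  have hDcov : ∀ p ∈ C, ∃ i, p ∈ D i := by
    intro p hp
    obtain ⟨q, hq, hpq⟩ := Set.mem_iUnion₂.mp (hcov hp)
    rw [he] at hq
    obtain ⟨i, rfl⟩ := hq
    have h1 : p ∈ ⋃ i, W i := Set.mem_iUnion.mpr ⟨i, hpq⟩
    rw [← iUnion_disjointed] at h1
    obtain ⟨j, hj⟩ := Set.mem_iUnion.mp h1
    exact ⟨j, hp, hj⟩
  have hDW : ∀ i, ∀ p ∈ D i, p ∈ W i := fun i p hp => disjointed_subset W i hp.2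
  have hlip : ∀ i, ∀ q ∈ D i, ∀ q' ∈ D i, ‖q.2 - q'.2‖ ≤ M (e i) * ‖q.1 - q'.1‖ ∧
      ‖q.1 - q'.1‖ ≤ M (e i) * ‖q.2 - q'.2‖ := fun i q hq q' hq' =>
    hM (e i) q (hDW i q hq) q' (hDW i q' hq') hq.1.2.1 hq'.1.2.1
  have hinj1 : ∀ i, InjOn Prod.fst (D i) := by
    intro i q hq q' hq' heq
    have h1 := (hlip i q hq q' hq').1
    rw [heq, sub_self, norm_zero, mul_zero] at h1
    exact Prod.ext heq (sub_eq_zero.mp (norm_le_zero_iff.mp h1))
  have hinj2 : ∀ i, InjOn Prod.snd (D i) := by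
    intro i q hq q' hq' heq
    have h1 := (hlip i q hq q' hq').2
    rw [heq, sub_self, norm_zero, mul_zero] at h1
    exact Prod.ext (sub_eq_zero.mp (norm_le_zero_iff.mp h1)) heq
  set S : ℕ → Set ℂ := fun i => Prod.fst '' D i with hS
  have hSm : ∀ i, MeasurableSet (S i) := fun i =>
    (hDm i).image_of_continuousOn_injOn continuous_fst.continuousOn (hinj1 i)
  have hex : ∀ i t, ∃ u, t ∈ S i → (t, u) ∈ D i := by
    intro i t
    by_cases ht : t ∈ S i
    · obtain ⟨⟨t', u⟩, hp, rfl⟩ := ht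
      exact ⟨u, fun _ => hp⟩
    · exact ⟨0, fun h => absurd h ht⟩
  choose φ hφ using hex
  have hφu : ∀ i t u, (t, u) ∈ D i → u = φ i t := by
    intro i t u htu
    have h1 := hφ i t ⟨(t, u), htu, rfl⟩
    have := hinj1 i htu h1 rfl
    exact (Prod.mk.injEq _ _ _ _ ▸ this).2
  have hφz : ∀ i, ∀ t ∈ S i, Φ (t, φ i t) = 0 := fun i t ht => (hφ i t ht).1.2.1
  have hSO : ∀ i, ∀ t ∈ S i, t ∈ O := fun i t ht => (hφ i t ht).1.1
  have hderiv : ∀ i, ∀ t ∈ S i,
      HasDerivWithinAt (φ i) (-(a (t, φ i t) / b (t, φ i t))) (S i) t := by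
    intro i t ht
    refine branch_deriv (hΦ (t, φ i t)).hasFDerivAt (hb0 t (hSO i t ht) _ (hφz i t ht)) ht
      (hφz i) (M := M (e i)) ?_
    intro t' ht'
    exact (hlip i _ (hφ i t' ht') _ (hφ i t ht)).1
  have hφinj : ∀ i, InjOn (φ i) (S i) := by
    intro i t ht t' ht' heq
    have := hinj2 i (hφ i t ht) (hφ i t' ht') heq
    exact (Prod.mk.injEq _ _ _ _ ▸ this).1
  have himg : ∀ i, φ i '' S i = Prod.snd '' D i := by
    intro i
    ext u
    constructor
    · rintro ⟨t, ht, rfl⟩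
      exact ⟨_, hφ i t ht, rfl⟩
    · rintro ⟨⟨t, u'⟩, hp, rfl⟩
      exact ⟨t, ⟨_, hp, rfl⟩, (hφu i t u' hp).symm⟩
  have hTm : ∀ i, MeasurableSet (Prod.snd '' D i) := fun i =>
    (hDm i).image_of_continuousOn_injOn continuous_snd.continuousOn (hinj2 i)
  -- change of variables
  have hcv : ∀ i, ∫⁻ t in S i, h (φ i t) * ‖a (t, φ i t) / b (t, φ i t)‖ₑ ^ 2 =
      ∫⁻ u in Prod.snd '' D i, h u := by
    intro i
    rw [← himg i, lintegral_image_eq_lintegral_abs_det_fderiv_mul volume (hSm i)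
      (fun t ht => ((hderiv i t ht).hasFDerivWithinAt.restrictScalars ℝ)) (hφinj i)]
    refine setLIntegral_congr_fun (hSm i) fun t _ => ?_
    have h1 := det_mul (-(a (t, φ i t) / b (t, φ i t)))
    have h2 : ENNReal.ofReal |((ContinuousLinearMap.smulRight (1 : ℂ →L[ℂ] ℂ)
        (-(a (t, φ i t) / b (t, φ i t)))).restrictScalars ℝ).det| =
        ‖a (t, φ i t) / b (t, φ i t)‖ₑ ^ 2 := by
      rw [h1, norm_neg, abs_of_nonneg (by positivity), ENNReal.ofReal_pow (norm_nonneg _),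
        ofReal_norm]
    rw [mul_comm]
    congr 1
    exact h2.symm
  -- the terms
  set F : ℂ → ℂ → ENNReal := fun t u => h u * ‖a (t, u) / b (t, u)‖ₑ ^ 2 with hF
  have hpt : ∀ t ∈ O, ∑ u ∈ rts t, F t u ≤ ∑' i, (S i).indicator (fun t => F t (φ i t)) t := by
    intro t ht
    have h1 : ∀ u ∈ rts t, F t u ≤ ∑' i, (if (t, u) ∈ D i then F t u else 0) := by
      intro u hu
      by_cases ha0 : a (t, u) = 0
      · simp [hF, ha0]
      · obtain ⟨i, hi⟩ := hDcov (t, u) ⟨ht, (hrts t ht u).mp hu, ha0⟩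
        refine le_trans ?_ (ENNReal.le_tsum i)
        rw [if_pos hi]
    refine (Finset.sum_le_sum h1).trans ?_
    rw [← Summable.tsum_finsetSum (fun _ _ => ENNReal.summable)]
    refine ENNReal.tsum_le_tsum fun i => ?_
    by_cases hti : t ∈ S i
    · rw [Set.indicator_of_mem hti]
      calc ∑ u ∈ rts t, (if (t, u) ∈ D i then F t u else 0)
          ≤ ∑ u ∈ rts t, (if u = φ i t then F t u else 0) := by
            refine Finset.sum_le_sum fun u _ => ?_
            by_cases hu : (t, u) ∈ D i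
            · rw [if_pos hu, if_pos (hφu i t u hu)]
            · rw [if_neg hu]; exact zero_le
        _ ≤ F t (φ i t) := by
            rw [Finset.sum_ite_eq']
            split_ifs
            · exact le_rfl
            · exact zero_le
    · rw [Set.indicator_of_notMem hti]
      refine le_of_eq (Finset.sum_eq_zero fun u _ => ?_)
      rw [if_neg]
      exact fun hu => hti ⟨(t, u), hu, rfl⟩
  have hmeas : ∀ i, AEMeasurable ((S i).indicator (fun t => F t (φ i t))) (volume.restrict O) := by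
    intro i
    have hco : ContinuousOn (φ i) (S i) := fun t ht => (hderiv i t ht).continuousWithinAt
    have hco2 : ContinuousOn (fun t => a (t, φ i t) / b (t, φ i t)) (S i) := by
      refine ContinuousOn.div (ha.comp_continuousOn (continuousOn_id.prodMk hco))
        (hb.comp_continuousOn (continuousOn_id.prodMk hco)) ?_
      intro t ht
      exact hb0 t (hSO i t ht) _ (hφz i t ht)
    have h1 : AEMeasurable (fun t => F t (φ i t)) (volume.restrict (S i)) := by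
      refine AEMeasurable.mul (hh.comp_aemeasurable (hco.aemeasurable (hSm i))) ?_
      exact (hco2.aemeasurable (hSm i)).enorm.pow_const 2
    have h2 : AEMeasurable ((S i).indicator (fun t => F t (φ i t))) volume :=
      (aemeasurable_indicator_iff (hSm i)).mpr h1
    exact h2.restrict
  calc ∫⁻ t in O, ∑ u ∈ rts t, h u * ‖a (t, u) / b (t, u)‖ₑ ^ 2
      ≤ ∫⁻ t in O, ∑' i, (S i).indicator (fun t => F t (φ i t)) t :=
        setLIntegral_mono' hO.measurableSet hpt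
    _ = ∑' i, ∫⁻ t in O, (S i).indicator (fun t => F t (φ i t)) t := lintegral_tsum hmeas
    _ ≤ ∑' i, ∫⁻ t in S i, F t (φ i t) := by
        refine ENNReal.tsum_le_tsum fun i => ?_
        refine (lintegral_mono' Measure.restrict_le_self le_rfl).trans ?_
        rw [lintegral_indicator (hSm i)]
    _ = ∑' i, ∫⁻ u in Prod.snd '' D i, h u := by
        congr 1
        ext i
        exact hcv i
    _ = ∑' i, ∫⁻ u, (Prod.snd '' D i).indicator h u := by
        congr 1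
        ext i
        rw [lintegral_indicator (hTm i)]
    _ = ∫⁻ u, ∑' i, (Prod.snd '' D i).indicator h u :=
        (lintegral_tsum fun i => (hh.indicator (hTm i)).aemeasurable).symm
    _ ≤ ∫⁻ u, K * h u := by
        refine lintegral_mono_ae ?_
        filter_upwards [hK] with u hu
        -- the indices i with u in the image are at most K
        set I : Set ℕ := {i | u ∈ Prod.snd '' D i} with hI
        have hIex : ∀ i : ℕ, ∃ t, i ∈ I → (t, u) ∈ D i := by
          intro i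
          by_cases hi : i ∈ I
          · obtain ⟨⟨t, u'⟩, hp, rfl⟩ := hi
            exact ⟨t, fun _ => hp⟩
          · exact ⟨0, fun h => absurd h hi⟩
        choose τ hτ using hIex
        have hIcard : I.encard ≤ K := by
          refine le_trans ?_ hu
          refine Set.encard_le_encard_of_injOn (f := τ) ?_ ?_
          · intro i hi
            exact ⟨(hτ i hi).1.1, (hτ i hi).1.2.1⟩
          · intro i hi j hj hij
            by_contra hne
            have h1 := hτ i hi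
            rw [hij] at h1
            exact (Set.disjoint_left.mp (hDdisj i j hne)) h1 (hτ j hj)
        have hIfin : I.Finite := Set.finite_of_encard_le_coe hIcard
        have h1 : ∑' i, (Prod.snd '' D i).indicator h u = ∑ i ∈ hIfin.toFinset, h u := by
          rw [tsum_eq_sum (s := hIfin.toFinset)]
          · refine Finset.sum_congr rfl fun i hi => ?_
            rw [Set.indicator_of_mem]
            exact hIfin.mem_toFinset.mp hi
          · intro i hi
            rw [Set.indicator_of_notMem]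
            exact fun hh' => hi (hIfin.mem_toFinset.mpr hh')
        rw [h1, Finset.sum_const, nsmul_eq_mul]
        gcongr
        have h2 : I.encard = (hIfin.toFinset.card : ℕ∞) := hIfin.encard_eq_coe_toFinset_card
        rw [h2] at hIcard
        exact_mod_cast hIcard
    _ = K * ∫⁻ u, h u := by rw [lintegral_const_mul _ hh]

end main

end Pool.Agent.Helper27.LinArea
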