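import Pool.Agent.Helper10.RC.Basic

/-!
# Descent of finitely many polynomials to a number field; irreducibility
-/

set_option autoImplicit false

namespace Pool.Agent.Helper27.RC

open Pool.Agent.Helper10.RC MvPolynomial NumberField

theorem descent {K : Type} [Field K] [NumberField K] {n : ℕ} (Fs : Finset (AlgebraicClosure K))
    (Gs : Finset (Pl (AlgebraicClosure K) n)) :
    ∃ (L : Type) (_ : Field L) (_ : NumberField L) (_ : Algebra K L)
      (φ : L →ₐ[K] AlgebraicClosure K), (∀ x ∈ Fs, ∃ z : L, φ z = x) ∧
      ∀ G ∈ Gs, ∃ H : Pl L n, H.map (MvPolynomial.map (φ : L →+* AlgebraicClosure K)) = G := by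
  classical
  set s : Finset (AlgebraicClosure K) :=
    Fs ∪ Gs.biUnion fun G => G.support.biUnion fun k =>
      (G.coeff k).support.image fun α => MvPolynomial.coeff α (G.coeff k) with hs
  have hfin : FiniteDimensional K
      (IntermediateField.adjoin K (s : Set (AlgebraicClosure K))) := by
    have : Finite (s : Set (AlgebraicClosure K)) := s.finite_toSet
    apply IntermediateField.finiteDimensional_adjoin
    intro x _
    exact Algebra.IsIntegral.isIntegral x
  refine ⟨IntermediateField.adjoin K (s : Set (AlgebraicClosure K)), inferInstance,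
    NumberField.of_module_finite K _, inferInstance, IntermediateField.val _, ?_, ?_⟩
  · intro x hx
    exact ⟨⟨x, IntermediateField.subset_adjoin K _ (by
      rw [hs]; exact_mod_cast Finset.mem_union_left _ hx)⟩, rfl⟩
  · intro G hG
    have key : G ∈ Polynomial.lifts (MvPolynomial.map (σ := Fin n)
        ((IntermediateField.val (IntermediateField.adjoin K
          (s : Set (AlgebraicClosure K)))) :
          IntermediateField.adjoin K (s : Set (AlgebraicClosure K)) →+*
            AlgebraicClosure K)) := by
      rw [Polynomial.lifts_iff_coeff_lifts]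
      intro k
      rw [MvPolynomial.mem_range_map_iff_coeffs_subset]
      intro c hc
      rw [Finset.mem_coe, MvPolynomial.mem_coeffs_iff] at hc
      obtain ⟨α, hα, rfl⟩ := hc
      refine ⟨⟨MvPolynomial.coeff α (G.coeff k), IntermediateField.subset_adjoin K _ ?_⟩, rfl⟩
      rw [hs, Finset.mem_coe]
      apply Finset.mem_union_right
      rw [Finset.mem_biUnion]
      refine ⟨G, hG, ?_⟩
      rw [Finset.mem_biUnion]
      refine ⟨k, ?_, Finset.mem_image_of_mem _ hα⟩
      rw [Polynomial.mem_support_iff]
      rintro h0
      rw [h0] at hα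
      simp at hα
    exact (Polynomial.mem_lifts _).mp key

lemma kum_map {K : Type} [Field K] {n : ℕ} (P : Pl K n) (N : ℕ) (L M : Type) [Field L] [Field M]
    [Algebra K L] [Algebra K M] (φ : L →ₐ[K] M) :
    kum M P N = (kum L P N).map (MvPolynomial.map (φ : L →+* M)) := by
  rw [kum, kum, Polynomial.map_map]
  congr 1
  ext x
  · simp
  · simp

theorem irr_descent {K : Type} [Field K] [NumberField K] {n : ℕ} (P : Pl K n) (hP : P.Monic)
    (N : ℕ) (hN : 1 ≤ N) (hirr : Irreducible (kum (AlgebraicClosure K) P N)) (L : Type) [Field L]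
    [Algebra K L] (φ : L →ₐ[K] AlgebraicClosure K) : Irreducible (kum L P N) := by
  rw [kum_map P N L (AlgebraicClosure K) φ] at hirr
  have hmon : (kum L P N).Monic := hP.map _
  exact hmon.irreducible_of_irreducible_map _ _ hirr

end Pool.Agent.Helper27.RC
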