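import Pool.Agent.Helper65.Excess

/-!
# Few touched vertices in a small block (module BLOCK for MP_dd10ca_co)
-/

set_option autoImplicit false

namespace Pool.Agent.Helper65

open Finset Real

/-- Vertices of the block `range m` that are not touched by any edge inside the block. -/
def iso (m : ℕ) (F : Finset (ℕ × ℕ)) : Finset ℕ :=
  (range m).filter (fun a => ∀ e ∈ F, e ∈ cols 0 m → e.1 ≠ a ∧ e.2 ≠ a)

lemma two_card_cols (m : ℕ) : 2 * (cols 0 m).card = m * (m - 1) := by
  induction m with
  | zero => simp [cols_self]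
  | succ m ih =>
    rw [cols_succ (Nat.zero_le m), Finset.card_union_of_disjoint cols_disjoint_col]
    have h1 : (col m).card = m := by simp [col]
    rw [h1, mul_add, ih]
    cases m with
    | zero => simp
    | succ k =>
      simp only [Nat.add_sub_cancel]
      ring

lemma card_cols (m : ℕ) : (cols 0 m).card = m * (m - 1) / 2 := by
  have := two_card_cols m
  omega

lemma iso_card_add (m : ℕ) (F : Finset (ℕ × ℕ)) : m ≤ (iso m F).card + 2 * F.card := by
  have h1 : range m ⊆ iso m F ∪ (F.image Prod.fst ∪ F.image Prod.snd) := by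
    intro a ha
    by_cases h : a ∈ iso m F
    · exact Finset.mem_union_left _ h
    · refine Finset.mem_union_right _ ?_
      simp only [iso, Finset.mem_filter, ha, true_and, not_forall] at h
      obtain ⟨e, he, _, h2⟩ := h
      simp only [Finset.mem_union, Finset.mem_image]
      by_cases h3 : e.1 = a
      · exact Or.inl ⟨e, he, h3⟩
      · refine Or.inr ⟨e, he, ?_⟩
        by_contra h4
        exact h2 ⟨h3, h4⟩
  have h2 := Finset.card_le_card h1
  rw [Finset.card_range] at h2
  have h3 := Finset.card_union_le (iso m F) (F.image Prod.fst ∪ F.image Prod.snd)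
  have h4 := Finset.card_union_le (F.image Prod.fst) (F.image Prod.snd)
  have h5 := Finset.card_image_le (s := F) (f := Prod.fst)
  have h6 := Finset.card_image_le (s := F) (f := Prod.snd)
  omega

/-- exponential Markov for the number of edges: E e^{|E|} = (1-p+pe)^{|cols 0 m|} (Ex_pow_card in
Pool.Agent.Helper65.Excess), |cols 0 m| ≤ m^2/2, each edge touches two vertices. -/
theorem Pr_iso {p : ℝ} (hp0 : 0 ≤ p) (hp1 : p ≤ 1) (m : ℕ) (hm : 32 * (p * m) ≤ 1) :
    1 - exp (-((m : ℝ) / 200)) ≤ Pr p (cols 0 m) (fun F => 7 * m ≤ 8 * (iso m F).card) := by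
  have h1 : Pr p (cols 0 m) (fun F => ¬ (7 * m ≤ 8 * (iso m F).card)) ≤
      Pr p (cols 0 m) (fun F => exp ((m : ℝ) / 16) ≤ (exp 1) ^ F.card) := by
    refine Pr_mono hp0 hp1 ?_
    intro F _ h
    have h2 := iso_card_add m F
    have h3 : m ≤ 16 * F.card := by omega
    have h4 : (m : ℝ) ≤ 16 * F.card := by exact_mod_cast h3
    rw [← Real.exp_nat_mul]
    apply Real.exp_le_exp.mpr
    linarith
  have h2 : Pr p (cols 0 m) (fun F => exp ((m : ℝ) / 16) ≤ (exp 1) ^ F.card) ≤
      (1 - p + p * exp 1) ^ (cols 0 m).card / exp ((m : ℝ) / 16) := by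
    refine (Pr_markov hp0 hp1 (fun E _ => by positivity) (Real.exp_pos _)).trans ?_
    rw [Ex_pow_card]
  have he : exp 1 ≤ 2.7182818286 := Real.exp_one_lt_d9.le
  have he1 : 1 ≤ exp 1 := Real.one_le_exp (by norm_num)
  have h3 : (1 - p + p * exp 1) ^ (cols 0 m).card ≤ exp (p * (exp 1 - 1) * (cols 0 m).card) := by
    have h4 : 1 - p + p * exp 1 ≤ exp (p * (exp 1 - 1)) := by
      have := Real.add_one_le_exp (p * (exp 1 - 1))
      linarith
    have h5 : 0 ≤ 1 - p + p * exp 1 := by nlinarith
    calc (1 - p + p * exp 1) ^ (cols 0 m).card ≤ (exp (p * (exp 1 - 1))) ^ (cols 0 m).card :=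
          pow_le_pow_left₀ h5 h4 _
      _ = exp (p * (exp 1 - 1) * (cols 0 m).card) := by
          rw [← Real.exp_nat_mul]; ring_nf
  have h6 : p * (exp 1 - 1) * (cols 0 m).card ≤ (exp 1 - 1) * m / 64 := by
    have h7 : (2 * (cols 0 m).card : ℝ) ≤ m * m := by
      have := two_card_cols m
      have h8 : 2 * (cols 0 m).card ≤ m * m := by
        rw [this]
        exact Nat.mul_le_mul_left _ (Nat.sub_le _ _)
      exact_mod_cast h8
    have h8 : p * (2 * (cols 0 m).card : ℝ) ≤ m / 32 := by
      have h9 : p * (2 * (cols 0 m).card : ℝ) ≤ p * (m * m) := mul_le_mul_of_nonneg_left h7 hp0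
      have h10 : 32 * (p * m) * m ≤ 1 * m := mul_le_mul_of_nonneg_right hm (Nat.cast_nonneg m)
      linarith
    nlinarith
  have h7 : Pr p (cols 0 m) (fun F => ¬ (7 * m ≤ 8 * (iso m F).card)) ≤ exp (-((m : ℝ) / 200)) := by
    refine h1.trans (h2.trans ?_)
    rw [div_le_iff₀ (Real.exp_pos _), ← Real.exp_add]
    refine h3.trans (Real.exp_le_exp.mpr (h6.trans ?_))
    have hm0 : (0 : ℝ) ≤ m := Nat.cast_nonneg m
    nlinarith
  rw [Pr_not] at h7
  linarith

theorem Pr_iso_empty {p : ℝ} (hp0 : 0 ≤ p) (hp1 : p ≤ 1) (m : ℕ) :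
    (1 - p) ^ (m * (m - 1) / 2) ≤ Pr p (cols 0 m) (fun F => 7 * m ≤ 8 * (iso m F).card) := by
  have h1 := Pr_eq p (Finset.empty_subset (cols 0 m))
  rw [Finset.card_empty, pow_zero, one_mul, Nat.sub_zero, card_cols] at h1
  rw [← h1]
  refine Pr_mono hp0 hp1 ?_
  rintro F _ rfl
  have : iso m ∅ = range m := by simp [iso]
  rw [this, Finset.card_range]
  omega

end Pool.Agent.Helper65
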