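import Pool.Agent.Helper65.WidthBound

/-!
# Width bound in the sparse range (module WIDTHMID for MP_dd10ca_co)
-/

set_option autoImplicit false

namespace Pool.Agent.Helper65

open Finset Real Filter Topology

/-! Use Pr_width_le with log (1-p) ≤ -p; then the exponent is at most
log n + k log 2 - k(k-1)p/2 + 8/p and pX² ≥ X ≥ 1/p, pX² ≥ log n. -/

theorem width_mid {p X : ℝ} (hp0 : 0 < p) (hp1 : p ≤ 1 / 100) {n : ℕ} (hn : 1 ≤ n)
    (hX1 : 1 / p ≤ X) (hX2 : log n ≤ p * X ^ 2) (k : ℕ) (hk : 8 * X ≤ (k : ℝ) - 1) :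
    Pr p (cols 0 n) (fun E => ∃ A ⊆ range n, A.card = k ∧ anti E A n) ≤ exp (-(1 / p)) ∧
    Pr p (cols 0 n) (fun E => ∃ A ⊆ range n, A.card = k ∧ anti E A n) ≤ 1 / n := by
  have hX0 : 0 < X := lt_of_lt_of_le (by positivity) hX1
  have hpX : 1 ≤ p * X := by
    rw [div_le_iff₀ hp0] at hX1
    linarith
  have hn0 : (0 : ℝ) < n := by exact_mod_cast hn
  have hk1 : 1 ≤ k := by
    by_contra h
    have : k = 0 := by omega
    subst this
    norm_num at hk
    linarith
  have h1 := Pr_width_le hp0 (by linarith) n k hk1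
  set y : ℝ := (k : ℝ) - 1 with hy
  have hlog : log (1 - p) ≤ -p := by
    have := Real.log_le_sub_one_of_pos (show 0 < 1 - p by linarith)
    linarith
  have hlog2 : log 2 ≤ 0.7 := by
    have := Real.log_two_lt_d9
    linarith
  have hy0 : 0 < y := by linarith
  have hpy : 8 ≤ p * y := by
    have : p * (8 * X) ≤ p * y := mul_le_mul_of_nonneg_left hk hp0.le
    linarith
  have hX3 : X ≤ p * X ^ 2 := by
    have : 1 * X ≤ (p * X) * X := mul_le_mul_of_nonneg_right hpX hX0.le
    nlinarith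
  have e1 : (k : ℝ) * log 2 + (k * (k - 1) / 2) * log (1 - p) ≤ -(26 * (p * X ^ 2)) := by
    have hk2 : (k : ℝ) = y + 1 := by rw [hy]; ring
    have h2 : (k : ℝ) * log 2 + (k * (k - 1) / 2) * log (1 - p) ≤
        (y + 1) * 0.7 + ((y + 1) * y / 2) * (-p) := by
      have h3 : (k : ℝ) * log 2 ≤ (y + 1) * 0.7 := by
        rw [hk2]
        exact mul_le_mul_of_nonneg_left hlog2 (by linarith)
      have h4 : ((k : ℝ) * (k - 1) / 2) * log (1 - p) ≤ ((y + 1) * y / 2) * (-p) := by
        rw [← hy, hk2]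
        exact mul_le_mul_of_nonneg_left hlog (by positivity)
      linarith
    refine h2.trans ?_
    have h5 : (y + 1) * 0.7 + ((y + 1) * y / 2) * (-p) = (y + 1) * (0.7 - p * y / 2) := by ring
    rw [h5]
    have h6 : 0.7 - p * y / 2 ≤ -(0.4125 * (p * y)) := by linarith
    have h7 : (y + 1) * (0.7 - p * y / 2) ≤ (y + 1) * (-(0.4125 * (p * y))) :=
      mul_le_mul_of_nonneg_left h6 (by linarith)
    refine h7.trans ?_
    have h8 : (8 * X) ^ 2 ≤ y ^ 2 := by
      have : 0 ≤ 8 * X := by linarith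
      exact pow_le_pow_left₀ this hk 2
    have h9 : p * (8 * X) ^ 2 ≤ p * y ^ 2 := mul_le_mul_of_nonneg_left h8 hp0.le
    nlinarith
  have e2 : 8 / p ≤ 8 * (p * X ^ 2) := by
    have : (8 : ℝ) / p = 8 * (1 / p) := by ring
    rw [this]
    linarith
  have hmain : Pr p (cols 0 n) (fun E => ∃ A ⊆ range n, A.card = k ∧ anti E A n) ≤
      exp (-(p * X ^ 2)) := by
    refine h1.trans ?_
    calc (n : ℝ) * exp (k * log 2 + (k * (k - 1) / 2) * log (1 - p) + 8 / p)
        = exp (log n) * exp (k * log 2 + (k * (k - 1) / 2) * log (1 - p) + 8 / p) := by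
          rw [Real.exp_log hn0]
      _ = exp (log n + (k * log 2 + (k * (k - 1) / 2) * log (1 - p) + 8 / p)) := by
          rw [← Real.exp_add]
      _ ≤ exp (-(p * X ^ 2)) := by
          apply Real.exp_le_exp.mpr
          have : 0 ≤ p * X ^ 2 := by positivity
          linarith
  constructor
  · refine hmain.trans (Real.exp_le_exp.mpr ?_)
    linarith
  · refine hmain.trans ?_
    have : (1 : ℝ) / n = exp (-log n) := by
      rw [Real.exp_neg, Real.exp_log hn0, one_div]
    rw [this]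
    apply Real.exp_le_exp.mpr
    linarith

end Pool.Agent.Helper65
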