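import Pool.Agent.Helper65.Windows

/-!
# Independent windows reduce the realizer event (module WINRED for MP_dd10ca_co)
-/

set_option autoImplicit false

namespace Pool.Agent.Helper65

open Finset

/-- The edges inside the window `[o, o + N)`, shifted back to `[0, N)`. -/
def shiftWin (o N : ℕ) (E : Finset (ℕ × ℕ)) : Finset (ℕ × ℕ) :=
  (cols 0 N).filter (fun e => (o + e.1, o + e.2) ∈ E)

lemma mem_shiftWin {o N : ℕ} {E : Finset (ℕ × ℕ)} {a b : ℕ} :
    (a, b) ∈ shiftWin o N E ↔ a < b ∧ b < N ∧ (o + a, o + b) ∈ E := by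
  simp only [shiftWin, Finset.mem_filter, mem_cols]
  constructor
  · rintro ⟨⟨h1, _, h2⟩, h3⟩
    exact ⟨h1, h2, h3⟩
  · rintro ⟨h1, h2, h3⟩
    exact ⟨⟨h1, Nat.zero_le _, h2⟩, h3⟩

lemma rel_shiftWin {o N n : ℕ} {E : Finset (ℕ × ℕ)} (hE : E ⊆ cols 0 n) {x y : ℕ}
    (hy : y < N) : Rel E (o + x) (o + y) ↔ Rel (shiftWin o N E) x y := by
  constructor
  · intro h
    have key : ∀ z, Rel E (o + x) z → o + x < z ∧ (z < o + N → Rel (shiftWin o N E) x (z - o)) := by
      intro z hz
      induction hz with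
      | single h =>
        rename_i z
        have h1 := mem_cols.mp (hE h)
        simp only at h1
        refine ⟨h1.1, fun h2 => Relation.TransGen.single ?_⟩
        rw [mem_shiftWin]
        refine ⟨by omega, by omega, ?_⟩
        rwa [show o + (z - o) = z by omega]
      | tail _ h ih =>
        rename_i b c _
        have h1 := mem_cols.mp (hE h)
        simp only at h1
        refine ⟨by omega, fun h2 => Relation.TransGen.tail (ih.2 (by omega)) ?_⟩
        rw [mem_shiftWin]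
        refine ⟨by omega, by omega, ?_⟩
        rwa [show o + (b - o) = b by omega, show o + (c - o) = c by omega]
    have h1 := (key _ h).2 (by omega)
    rwa [Nat.add_sub_cancel_left] at h1
  · intro h
    unfold Rel at h ⊢
    induction h with
    | single h => exact Relation.TransGen.single (mem_shiftWin.mp h).2.2
    | tail _ h ih =>
      have h1 := mem_shiftWin.mp h
      exact Relation.TransGen.tail (ih (by omega)) h1.2.2

lemma isRealizer_shiftWin {o N n d : ℕ} {E : Finset (ℕ × ℕ)} (hE : E ⊆ cols 0 n)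
    (ho : o + N ≤ n) {σ : Fin d → ℕ → ℕ} (h : IsRealizer n E d σ) :
    IsRealizer N (shiftWin o N E) d (fun k x => σ k (o + x)) := by
  refine ⟨?_, ?_⟩
  · intro k x hx y hy hxy
    have := h.1 k (o + x) (by omega) (o + y) (by omega) hxy
    omega
  · intro x hx y hy hxy
    rw [← rel_shiftWin hE hy]
    exact h.2 (o + x) (by omega) (o + y) (by omega) (by omega)

/-- The shift by `o` on pairs. -/
def shiftEmb (o : ℕ) : ℕ × ℕ ↪ ℕ × ℕ where
  toFun e := (o + e.1, o + e.2)
  inj' := by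
    rintro ⟨a, b⟩ ⟨c, d⟩ h
    simp only [Prod.mk.injEq] at h ⊢
    omega

lemma map_shiftEmb (o N : ℕ) : (cols 0 N).map (shiftEmb o) = win o N := by
  ext ⟨a, b⟩
  rw [Finset.mem_map, mem_win]
  constructor
  · rintro ⟨⟨c, d⟩, h1, h2⟩
    have h3 : (o + c, o + d) = (a, b) := h2
    rw [mem_cols] at h1
    simp only [Prod.mk.injEq] at h1 h3 ⊢
    omega
  · rintro ⟨h1, h2, h3⟩
    simp only at h1 h2 h3
    refine ⟨(a - o, b - o), mem_cols.mpr ?_, ?_⟩
    · simp only
      omega
    · show (o + (a - o), o + (b - o)) = (a, b)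
      simp only [Prod.mk.injEq]
      omega

lemma shiftWin_map {o N : ℕ} {F : Finset (ℕ × ℕ)} (hF : F ⊆ cols 0 N) :
    shiftWin o N (F.map (shiftEmb o)) = F := by
  ext ⟨a, b⟩
  rw [mem_shiftWin]
  constructor
  · rintro ⟨_, _, h⟩
    have : (shiftEmb o) (a, b) ∈ F.map (shiftEmb o) := h
    rwa [Finset.mem_map'] at this
  · intro h
    have h1 := mem_cols.mp (hF h)
    simp only at h1
    refine ⟨h1.1, h1.2.2, ?_⟩
    have : (shiftEmb o) (a, b) ∈ F.map (shiftEmb o) := (Finset.mem_map' _).mpr h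
    exact this

lemma shiftWin_inter (o N : ℕ) (E : Finset (ℕ × ℕ)) :
    shiftWin o N (E ∩ win o N) = shiftWin o N E := by
  ext ⟨a, b⟩
  rw [mem_shiftWin, mem_shiftWin, Finset.mem_inter, mem_win]
  constructor
  · rintro ⟨h1, h2, h3, _⟩
    exact ⟨h1, h2, h3⟩
  · rintro ⟨h1, h2, h3⟩
    refine ⟨h1, h2, h3, ?_⟩
    simp only
    omega

lemma Pr_shiftWin {p : ℝ} (o N : ℕ) (P : Finset (ℕ × ℕ) → Prop) :
    Pr p (win o N) (fun E => P (shiftWin o N E)) = Pr p (cols 0 N) P := by
  unfold Pr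
  rw [← map_shiftEmb, Ex_map]
  refine Ex_congr ?_
  intro F hF
  show ind (P (shiftWin o N (F.map (shiftEmb o)))) = ind (P F)
  rw [shiftWin_map hF]

theorem Pr_realizer_windows {p : ℝ} (hp0 : 0 ≤ p) (hp1 : p ≤ 1) (n N W D : ℕ) (hW : W * N ≤ n) :
    Pr p (cols 0 n) (fun E => ∃ d < D, ∃ σ : Fin d → ℕ → ℕ, IsRealizer n E d σ) ≤
      (Pr p (cols 0 N) (fun E => ∃ d < D, ∃ σ : Fin d → ℕ → ℕ, IsRealizer N E d σ)) ^ W := by
  have hle : ∀ t ∈ range W, t * N + N ≤ n := by
    intro t ht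
    rw [Finset.mem_range] at ht
    calc t * N + N = (t + 1) * N := by ring
      _ ≤ W * N := Nat.mul_le_mul_right _ ht
      _ ≤ n := hW
  have hsub : ∀ t ∈ range W, win (t * N) N ⊆ cols 0 n := fun t ht => win_subset_cols (hle t ht)
  have hdisj : ∀ s ∈ range W, ∀ t ∈ range W, s ≠ t → Disjoint (win (s * N) N) (win (t * N) N) := by
    have key : ∀ s t : ℕ, s < t → Disjoint (win (s * N) N) (win (t * N) N) := by
      intro s t hst
      rw [Finset.disjoint_left]
      intro e he he'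
      rw [mem_win] at he he'
      have : (s + 1) * N ≤ t * N := Nat.mul_le_mul_right _ hst
      have h2 : (s + 1) * N = s * N + N := by ring
      omega
    intro s _ t _ hst
    rcases lt_or_gt_of_ne hst with h | h
    · exact key s t h
    · exact (key t s h).symm
  set Q : Finset (ℕ × ℕ) → Prop := fun E => ∃ d < D, ∃ σ : Fin d → ℕ → ℕ, IsRealizer N E d σ
    with hQ
  have h1 : Pr p (cols 0 n) (fun E => ∃ d < D, ∃ σ : Fin d → ℕ → ℕ, IsRealizer n E d σ) ≤
      Pr p (cols 0 n) (fun E => ∀ t ∈ range W, Q (shiftWin (t * N) N E)) := by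
    refine Pr_mono hp0 hp1 ?_
    rintro E hE ⟨d, hd, σ, hσ⟩ t ht
    exact ⟨d, hd, _, isRealizer_shiftWin hE (hle t ht) hσ⟩
  have h2 : Pr p (cols 0 n) (fun E => ∀ t ∈ range W, Q (shiftWin (t * N) N E)) =
      ∏ t ∈ range W, Pr p (win (t * N) N) (fun E => Q (shiftWin (t * N) N E)) := by
    refine Pr_forall_indep (range W) (fun t => win (t * N) N) hdisj hsub
      (fun t E => Q (shiftWin (t * N) N E)) ?_
    intro t _ E _
    simp only [shiftWin_inter]
  refine h1.trans (h2.le.trans ?_)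
  have h3 : ∏ t ∈ range W, Pr p (win (t * N) N) (fun E => Q (shiftWin (t * N) N E)) =
      ∏ _t ∈ range W, Pr p (cols 0 N) Q :=
    Finset.prod_congr rfl (fun t _ => Pr_shiftWin (t * N) N Q)
  rw [h3, Finset.prod_const, Finset.card_range]

end Pool.Agent.Helper65
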